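import Pool.Agent.V641.TS.FdF
import Pool.Agent.H122R2.FdF.Main

/-!
Substitution into the sinks of a Fon-der-Flaass pattern keeps the bound.
-/

set_option autoImplicit false

namespace Pool.Agent.V641.TS

open Finset

variable {V : Type} [DecidableEq V]

/-- **Substitution into the sinks of a Fon-der-Flaass pattern keeps the bound.** -/
theorem closureF {H : Finset (Finset V)} (hH : ∀ e ∈ H, e.card = 3) (W : Finset V) {m : ℕ}
    (c : V → Fin m) (R : Fin m → Fin m → Prop) (hO : ∀ a b, R a b → ¬ R b a)
    (hC : ∀ a b c d, R a b → R b c → R c d → R d a → (R a c ∨ R c a ∨ R b d ∨ R d b))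
    (h1 : ∀ u ∈ W, ∀ v ∈ W, ∀ w ∈ W, ({u, v, w} : Finset V) ∈ H → ¬ (c u = c v ∧ c v = c w) →
      ¬ FT R (c u) (c v) (c w))
    (h2 : ∀ u ∈ W, ∀ v ∈ W, ∀ w ∈ W, ({u, v, w} : Finset V) ∈ H → c u = c v → c v = c w →
      ∀ b, ¬ R (c u) b)
    (hW : ∀ a, 54 * (inside H (W.filter fun u => c u = a)).card ≤
      5 * (W.filter fun u => c u = a).card ^ 3) :
    54 * (inside H W).card ≤ 5 * W.card ^ 3 := by
  classical
  have key : 9 * hh H W ≤ 5 * (W.card : ℤ) ^ 3 := by
    apply bound_of_form H W c (kF R)
    · intro u hu v hv w hw hn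
      unfold kF
      rw [if_neg hn]
      by_cases h : ({u, v, w} : Finset V) ∈ H
      · rw [if_pos h, if_neg (h1 u hu v hv w hw h hn)]
        norm_num
      · rw [if_neg h]
        split_ifs <;> norm_num
    · intro a
      unfold kF
      rw [if_pos (show a = a ∧ a = a from ⟨rfl, rfl⟩)]
      by_cases h : ∃ j, R a j
      · obtain ⟨j, hj⟩ := h
        rw [if_pos ⟨j, hj⟩]
        have h0 : hh H (W.filter fun u => c u = a) = 0 := by
          unfold hh
          refine sum_eq_zero fun u hu => sum_eq_zero fun v hv => sum_eq_zero fun w hw => ?_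
          rw [if_neg]
          intro he
          obtain ⟨hu1, hu2⟩ := mem_filter.1 hu
          obtain ⟨hv1, hv2⟩ := mem_filter.1 hv
          obtain ⟨hw1, hw2⟩ := mem_filter.1 hw
          exact h2 u hu1 v hv1 w hw1 he (hu2.trans hv2.symm) (hv2.trans hw2.symm) j
            (by rw [hu2]; exact hj)
        rw [h0]
        simp
      · rw [if_neg h, six_inside hH]
        have h1 : (54 * ((inside H (W.filter fun u => c u = a)).card : ℤ)) ≤
            5 * ((W.filter fun u => c u = a).card : ℤ) ^ 3 := by exact_mod_cast hW a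
        linarith
    · exact kF_nonneg hO (fun w hw hw1 => H122R2.FdF.main_weighted (ref R) w (ref_oriented hO)
        (ref_C4 hC) hw hw1) (fun a => (W.filter fun u => c u = a).card)
  rw [six_inside hH] at key
  have : (54 * ((inside H W).card : ℤ)) ≤ 5 * (W.card : ℤ) ^ 3 := by linarith
  exact_mod_cast this

end Pool.Agent.V641.TS
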