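import Mathlib

/-!
Substitution: from a cubic form to the number of edges.
-/

set_option autoImplicit false

namespace Pool.Agent.V641.TS

open Finset

variable {V : Type} [DecidableEq V]

/-- the number of ordered triples of `W` which are edges -/
def hh (H : Finset (Finset V)) (W : Finset V) : ℤ :=
  ∑ u ∈ W, ∑ v ∈ W, ∑ w ∈ W, if ({u, v, w} : Finset V) ∈ H then 1 else 0

omit [DecidableEq V] in
theorem sum_cls {ι : Type} [Fintype ι] [DecidableEq ι] (W : Finset V) (c : V → ι) (g : ι → ℤ) :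
    ∑ u ∈ W, g (c u) = ∑ a, ((W.filter (fun u => c u = a)).card : ℤ) * g a := by
  rw [← Finset.sum_fiberwise W c]
  refine sum_congr rfl fun a _ => ?_
  rw [sum_congr rfl (g := fun _ => g a) (fun u hu => by rw [(mem_filter.1 hu).2])]
  rw [sum_const, nsmul_eq_mul]

theorem bound_of_form {ι : Type} [Fintype ι] [DecidableEq ι] (H : Finset (Finset V))
    (W : Finset V) (c : V → ι) (κ : ι → ι → ι → ℤ)
    (h1 : ∀ u ∈ W, ∀ v ∈ W, ∀ w ∈ W, ¬ (c u = c v ∧ c v = c w) →
      9 * (if ({u, v, w} : Finset V) ∈ H then (1 : ℤ) else 0) ≤ 5 - κ (c u) (c v) (c w))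
    (h2 : ∀ a, 9 * hh H (W.filter fun u => c u = a) ≤
      (5 - κ a a a) * ((W.filter fun u => c u = a).card : ℤ) ^ 3)
    (h3 : 0 ≤ ∑ a, ∑ b, ∑ d, κ a b d * ((W.filter fun u => c u = a).card : ℤ) *
      ((W.filter fun u => c u = b).card : ℤ) * ((W.filter fun u => c u = d).card : ℤ)) :
    9 * hh H W ≤ 5 * (W.card : ℤ) ^ 3 := by
  set G : V → V → V → ℤ := fun u v w =>
    9 * (if ({u, v, w} : Finset V) ∈ H then (1 : ℤ) else 0) - 5 + κ (c u) (c v) (c w) with hG
  have e1 : ∑ u ∈ W, ∑ v ∈ W, ∑ w ∈ W, G u v w ≤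
      ∑ u ∈ W, ∑ v ∈ W, ∑ w ∈ W, (if c u = c v ∧ c v = c w then G u v w else 0) := by
    refine sum_le_sum fun u hu => sum_le_sum fun v hv => sum_le_sum fun w hw => ?_
    split_ifs with h
    · exact le_refl _
    · have := h1 u hu v hv w hw h
      rw [hG]
      dsimp only
      linarith
  have e2 : ∑ u ∈ W, ∑ v ∈ W, ∑ w ∈ W, (if c u = c v ∧ c v = c w then G u v w else 0) =
      ∑ a, ∑ u ∈ W.filter (fun u => c u = a), ∑ v ∈ W.filter (fun u => c u = a),
        ∑ w ∈ W.filter (fun u => c u = a), G u v w := by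
    rw [← Finset.sum_fiberwise W c]
    refine sum_congr rfl fun a _ => sum_congr rfl fun u hu => ?_
    have hua := (mem_filter.1 hu).2
    rw [sum_filter]
    refine sum_congr rfl fun v _ => ?_
    by_cases hv : c v = a
    · rw [if_pos hv, sum_filter]
      refine sum_congr rfl fun w _ => ?_
      by_cases hw : c w = a
      · rw [if_pos hw, if_pos ⟨hua.trans hv.symm, hv.trans hw.symm⟩]
      · rw [if_neg hw, if_neg (fun h => hw (h.2.symm.trans hv))]
    · rw [if_neg hv]
      refine sum_eq_zero fun w _ => ?_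
      rw [if_neg (fun h => hv (h.1.symm.trans hua))]
  have e3 : ∀ a, ∑ u ∈ W.filter (fun u => c u = a), ∑ v ∈ W.filter (fun u => c u = a),
      ∑ w ∈ W.filter (fun u => c u = a), G u v w ≤ 0 := by
    intro a
    have e4 : ∑ u ∈ W.filter (fun u => c u = a), ∑ v ∈ W.filter (fun u => c u = a),
      ∑ w ∈ W.filter (fun u => c u = a), G u v w =
      9 * hh H (W.filter fun u => c u = a) -
        (5 - κ a a a) * ((W.filter fun u => c u = a).card : ℤ) ^ 3 := by
      have e5 : ∀ u ∈ W.filter (fun u => c u = a), ∀ v ∈ W.filter (fun u => c u = a),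
          ∀ w ∈ W.filter (fun u => c u = a), G u v w =
            9 * (if ({u, v, w} : Finset V) ∈ H then (1 : ℤ) else 0) - (5 - κ a a a) := by
        intro u hu v hv w hw
        rw [hG]
        dsimp only
        rw [(mem_filter.1 hu).2, (mem_filter.1 hv).2, (mem_filter.1 hw).2]
        ring
      rw [sum_congr rfl fun u hu => sum_congr rfl fun v hv => sum_congr rfl fun w hw =>
        e5 u hu v hv w hw]
      unfold hh
      simp only [sum_sub_distrib, ← mul_sum, sum_const, nsmul_eq_mul]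
      ring
    rw [e4]
    linarith [h2 a]
  have e6 : ∑ u ∈ W, ∑ v ∈ W, ∑ w ∈ W, κ (c u) (c v) (c w) =
      ∑ a, ∑ b, ∑ d, κ a b d * ((W.filter fun u => c u = a).card : ℤ) *
      ((W.filter fun u => c u = b).card : ℤ) * ((W.filter fun u => c u = d).card : ℤ) := by
    have f1 : ∀ u ∈ W, ∑ v ∈ W, ∑ w ∈ W, κ (c u) (c v) (c w) =
        (fun a => ∑ b, ((W.filter (fun u => c u = b)).card : ℤ) *
          ∑ d, ((W.filter (fun u => c u = d)).card : ℤ) * κ a b d) (c u) := by
      intro u _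
      dsimp only
      rw [← sum_cls W c (fun b => ∑ d, ((W.filter (fun u => c u = d)).card : ℤ) * κ (c u) b d)]
      refine sum_congr rfl fun v _ => ?_
      exact sum_cls W c (fun d => κ (c u) (c v) d)
    rw [sum_congr rfl f1, sum_cls W c (fun a => ∑ b, ((W.filter (fun u => c u = b)).card : ℤ) *
          ∑ d, ((W.filter (fun u => c u = d)).card : ℤ) * κ a b d)]
    refine sum_congr rfl fun a _ => ?_
    rw [mul_sum]
    refine sum_congr rfl fun b _ => ?_
    rw [mul_sum, mul_sum]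
    refine sum_congr rfl fun d _ => ?_
    ring
  have e7 : ∑ u ∈ W, ∑ v ∈ W, ∑ w ∈ W, G u v w = 9 * hh H W - 5 * (W.card : ℤ) ^ 3 +
      ∑ u ∈ W, ∑ v ∈ W, ∑ w ∈ W, κ (c u) (c v) (c w) := by
    rw [hG]
    unfold hh
    simp only [sum_add_distrib, sum_sub_distrib, ← mul_sum, sum_const, nsmul_eq_mul]
    ring
  have e8 : ∑ a, ∑ u ∈ W.filter (fun u => c u = a), ∑ v ∈ W.filter (fun u => c u = a),
      ∑ w ∈ W.filter (fun u => c u = a), G u v w ≤ 0 := sum_nonpos fun a _ => e3 a
  rw [e7, e2, e6] at e1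
  linarith

/-- the edges inside `W` -/
def inside (H : Finset (Finset V)) (W : Finset V) : Finset (Finset V) := H.filter fun e => e ⊆ W

theorem ne_of_triple {u v w : V} (h : ({u, v, w} : Finset V).card = 3) : u ≠ v ∧ u ≠ w ∧ v ≠ w := by
  refine ⟨?_, ?_, ?_⟩
  · rintro rfl
    have : ({u, u, w} : Finset V) = {u, w} := by simp
    rw [this] at h
    have := card_le_two (a := u) (b := w)
    omega
  · rintro rfl
    have : ({u, v, u} : Finset V) = {v, u} := by rw [Finset.insert_comm]; simp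
    rw [this] at h
    have := card_le_two (a := v) (b := u)
    omega
  · rintro rfl
    have : ({u, v, v} : Finset V) = {u, v} := by simp
    rw [this] at h
    have := card_le_two (a := u) (b := v)
    omega

theorem perm_of_triple {a b d u v w : V} (h0 : ({a, b, d} : Finset V).card = 3)
    (h : ({u, v, w} : Finset V) = {a, b, d}) :
    (u = a ∧ v = b ∧ w = d) ∨ (u = a ∧ v = d ∧ w = b) ∨ (u = b ∧ v = a ∧ w = d) ∨
      (u = b ∧ v = d ∧ w = a) ∨ (u = d ∧ v = a ∧ w = b) ∨ (u = d ∧ v = b ∧ w = a) := by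
  have hu : u ∈ ({a, b, d} : Finset V) := by rw [← h]; simp
  have hv : v ∈ ({a, b, d} : Finset V) := by rw [← h]; simp
  have hw : w ∈ ({a, b, d} : Finset V) := by rw [← h]; simp
  rw [← h] at h0
  obtain ⟨n1, n2, n3⟩ := ne_of_triple h0
  clear h0 h
  rw [mem_insert, mem_insert, mem_singleton] at hu hv hw
  rcases hu with h1 | h1 | h1 <;> rcases hv with h2 | h2 | h2 <;>
    rcases hw with h3 | h3 | h3 <;>
    first
      | exact absurd (h1.trans h2.symm) n1
      | exact absurd (h1.trans h3.symm) n2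
      | exact absurd (h2.trans h3.symm) n3
      | exact Or.inl ⟨h1, h2, h3⟩
      | exact Or.inr (Or.inl ⟨h1, h2, h3⟩)
      | exact Or.inr (Or.inr (Or.inl ⟨h1, h2, h3⟩))
      | exact Or.inr (Or.inr (Or.inr (Or.inl ⟨h1, h2, h3⟩)))
      | exact Or.inr (Or.inr (Or.inr (Or.inr (Or.inl ⟨h1, h2, h3⟩))))
      | exact Or.inr (Or.inr (Or.inr (Or.inr (Or.inr ⟨h1, h2, h3⟩))))

theorem six_inside {H : Finset (Finset V)} (hH : ∀ e ∈ H, e.card = 3) (W : Finset V) :
    hh H W = 6 * ((inside H W).card : ℤ) := by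
  have e1 : hh H W = (((W ×ˢ W ×ˢ W).filter fun p : V × V × V =>
      ({p.1, p.2.1, p.2.2} : Finset V) ∈ H).card : ℤ) := by
    unfold hh
    rw [card_filter, Finset.sum_product]
    push_cast
    refine sum_congr rfl fun u _ => ?_
    rw [Finset.sum_product]
  rw [e1]
  have h1 : ∀ p ∈ (W ×ˢ W ×ˢ W).filter (fun p : V × V × V =>
      ({p.1, p.2.1, p.2.2} : Finset V) ∈ H), ({p.1, p.2.1, p.2.2} : Finset V) ∈ inside H W := by
    intro p hp
    rw [mem_filter, mem_product, mem_product] at hp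
    refine mem_filter.2 ⟨hp.2, ?_⟩
    intro x hx
    simp only [mem_insert, mem_singleton] at hx
    rcases hx with rfl | rfl | rfl
    · exact hp.1.1
    · exact hp.1.2.1
    · exact hp.1.2.2
  rw [card_eq_sum_card_fiberwise h1]
  have h2 : ∀ e ∈ inside H W, (((W ×ˢ W ×ˢ W).filter (fun p : V × V × V =>
      ({p.1, p.2.1, p.2.2} : Finset V) ∈ H)).filter
        (fun p => ({p.1, p.2.1, p.2.2} : Finset V) = e)).card = 6 := by
    intro e he
    obtain ⟨heH, heW⟩ := mem_filter.1 he
    obtain ⟨a, b, d, hab, had, hbd, rfl⟩ := card_eq_three.1 (hH e heH)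
    have ha : a ∈ W := heW (by simp)
    have hb : b ∈ W := heW (by simp)
    have hd : d ∈ W := heW (by simp)
    have h3 : (((W ×ˢ W ×ˢ W).filter (fun p : V × V × V =>
      ({p.1, p.2.1, p.2.2} : Finset V) ∈ H)).filter
        (fun p => ({p.1, p.2.1, p.2.2} : Finset V) = {a, b, d})) =
        {(a, b, d), (a, d, b), (b, a, d), (b, d, a), (d, a, b), (d, b, a)} := by
      ext ⟨u, v, w⟩
      simp only [mem_filter, mem_product, mem_insert, mem_singleton, Prod.mk.injEq]
      constructor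
      · rintro ⟨⟨_, h4⟩, h5⟩
        exact perm_of_triple (hH _ heH) h5
      · rintro (⟨rfl, rfl, rfl⟩ | ⟨rfl, rfl, rfl⟩ | ⟨rfl, rfl, rfl⟩ | ⟨rfl, rfl, rfl⟩ |
          ⟨rfl, rfl, rfl⟩ | ⟨rfl, rfl, rfl⟩)
        · exact ⟨⟨⟨ha, hb, hd⟩, heH⟩, rfl⟩
        · have e : ({u, v, w} : Finset V) = {u, w, v} := by rw [Finset.pair_comm]
          exact ⟨⟨⟨ha, hd, hb⟩, by rw [e]; exact heH⟩, e⟩
        · have e : ({u, v, w} : Finset V) = {v, u, w} := by rw [Finset.insert_comm]
          exact ⟨⟨⟨hb, ha, hd⟩, by rw [e]; exact heH⟩, e⟩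
        · have e : ({u, v, w} : Finset V) = {w, u, v} := by
            rw [Finset.insert_comm w u, Finset.pair_comm w v]
          exact ⟨⟨⟨hb, hd, ha⟩, by rw [e]; exact heH⟩, e⟩
        · have e : ({u, v, w} : Finset V) = {v, w, u} := by
            rw [Finset.insert_comm u v, Finset.pair_comm u w]
          exact ⟨⟨⟨hd, ha, hb⟩, by rw [e]; exact heH⟩, e⟩
        · have e : ({u, v, w} : Finset V) = {w, v, u} := by
            rw [Finset.insert_comm u v, Finset.pair_comm u w, Finset.insert_comm v w]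
          exact ⟨⟨⟨hd, hb, ha⟩, by rw [e]; exact heH⟩, e⟩
    rw [h3]
    rw [card_insert_of_notMem, card_insert_of_notMem, card_insert_of_notMem,
      card_insert_of_notMem, card_insert_of_notMem, card_singleton] <;>
      simp [hab, had, hbd, hab.symm, had.symm, hbd.symm]
  rw [sum_congr rfl h2, sum_const, nsmul_eq_mul]
  push_cast
  ring

end Pool.Agent.V641.TS
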