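import Pool.Agent.V641.TS.Key2
import Pool.Agent.V641.TS.Sub

/-!
Substitution into at most five classes.
-/

set_option autoImplicit false

namespace Pool.Agent.V641.TS

open Finset

variable {V : Type} [DecidableEq V]

/-- no four vertices span all four triples -/
def K43Free (H : Finset (Finset V)) : Prop :=
  ∀ p q r s : V, p ≠ q → p ≠ r → p ≠ s → q ≠ r → q ≠ s → r ≠ s →
    ¬ (({p, q, r} : Finset V) ∈ H ∧ ({p, q, s} : Finset V) ∈ H ∧ ({p, r, s} : Finset V) ∈ H ∧
      ({q, r, s} : Finset V) ∈ H)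

/-- the classes `W ∩ c⁻¹(a)` are homogeneous: whether a triple of `W` which meets at least two
classes is an edge of `H` depends only on the classes of its vertices -/
def Homog {ι : Type} (H : Finset (Finset V)) (W : Finset V) (c : V → ι) : Prop :=
  ∀ u ∈ W, ∀ v ∈ W, ∀ w ∈ W, ∀ u' ∈ W, ∀ v' ∈ W, ∀ w' ∈ W,
    u ≠ v → u ≠ w → v ≠ w → u' ≠ v' → u' ≠ w' → v' ≠ w' →
    c u = c u' → c v = c v' → c w = c w' → ¬ (c u = c v ∧ c v = c w) →
    (({u, v, w} : Finset V) ∈ H ↔ ({u', v', w'} : Finset V) ∈ H)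

/-- the arcs of the pattern -/
def pD {ι : Type} (H : Finset (Finset V)) (W : Finset V) (c : V → ι) (a b : ι) : Prop :=
  a ≠ b ∧ ∃ u ∈ W, ∃ v ∈ W, ∃ w ∈ W, u ≠ v ∧ c u = a ∧ c v = a ∧ c w = b ∧
    ({u, v, w} : Finset V) ∈ H

/-- the triples of the pattern -/
def pT {ι : Type} (H : Finset (Finset V)) (W : Finset V) (c : V → ι) (a b d : ι) : Prop :=
  a ≠ b ∧ a ≠ d ∧ b ≠ d ∧ ∃ u ∈ W, ∃ v ∈ W, ∃ w ∈ W, c u = a ∧ c v = b ∧ c w = d ∧
    ({u, v, w} : Finset V) ∈ H

theorem tri_swap (u v w : V) : ({u, v, w} : Finset V) = {v, u, w} := Finset.insert_comm u v {w}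
theorem tri_swap' (u v w : V) : ({u, v, w} : Finset V) = {u, w, v} := by rw [Finset.pair_comm]

section
variable {ι : Type} {H : Finset (Finset V)} {W : Finset V} {c : V → ι}

theorem pD_use (hc : Homog H W c) {a b : ι} (h : pD H W c a b) {u v w : V} (hu : u ∈ W)
    (hv : v ∈ W) (hw : w ∈ W) (huv : u ≠ v) (ha : c u = a) (hb : c v = a) (hd : c w = b) :
    ({u, v, w} : Finset V) ∈ H := by
  obtain ⟨hab, u', hu', v', hv', w', hw', huv', ha', hb', hd', he⟩ := h
  refine (hc u' hu' v' hv' w' hw' u hu v hv w hw huv' ?_ ?_ huv ?_ ?_ (ha'.trans ha.symm)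
    (hb'.trans hb.symm) (hd'.trans hd.symm) ?_).1 he
  · rintro rfl; exact hab (ha'.symm.trans hd')
  · rintro rfl; exact hab (hb'.symm.trans hd')
  · rintro rfl; exact hab (ha.symm.trans hd)
  · rintro rfl; exact hab (hb.symm.trans hd)
  · rintro ⟨_, h⟩; exact hab (hb'.symm.trans (h.trans hd'))

theorem pT_use (hc : Homog H W c) {a b d : ι} (h : pT H W c a b d) {u v w : V} (hu : u ∈ W)
    (hv : v ∈ W) (hw : w ∈ W) (ha : c u = a) (hb : c v = b) (hd : c w = d) :
    ({u, v, w} : Finset V) ∈ H := by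
  obtain ⟨hab, had, hbd, u', hu', v', hv', w', hw', ha', hb', hd', he⟩ := h
  refine (hc u' hu' v' hv' w' hw' u hu v hv w hw ?_ ?_ ?_ ?_ ?_ ?_ (ha'.trans ha.symm)
    (hb'.trans hb.symm) (hd'.trans hd.symm) ?_).1 he
  · rintro rfl; exact hab (ha'.symm.trans hb')
  · rintro rfl; exact had (ha'.symm.trans hd')
  · rintro rfl; exact hbd (hb'.symm.trans hd')
  · rintro rfl; exact hab (ha.symm.trans hb)
  · rintro rfl; exact had (ha.symm.trans hd)
  · rintro rfl; exact hbd (hb.symm.trans hd)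
  · rintro ⟨h, _⟩; exact hab (ha'.symm.trans (h.trans hb'))

theorem pT_swap {a b d : ι} (h : pT H W c a b d) : pT H W c b a d := by
  obtain ⟨hab, had, hbd, u, hu, v, hv, w, hw, ha, hb, hd, he⟩ := h
  exact ⟨hab.symm, hbd, had, v, hv, u, hu, w, hw, hb, ha, hd, by rw [tri_swap]; exact he⟩

theorem pT_swap' {a b d : ι} (h : pT H W c a b d) : pT H W c a d b := by
  obtain ⟨hab, had, hbd, u, hu, v, hv, w, hw, ha, hb, hd, he⟩ := h
  exact ⟨had, hab, hbd.symm, u, hu, w, hw, v, hv, ha, hd, hb, by rw [tri_swap']; exact he⟩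

theorem pD_asymm (hK : K43Free H) (hc : Homog H W c) (a b : ι) (h : pD H W c a b) :
    ¬ pD H W c b a := by
  intro h'
  obtain ⟨hab, u, hu, v, hv, _, _, huv, ha, hb, _, _⟩ := id h
  obtain ⟨_, p, hp, q, hq, _, _, hpq, hp', hq', _, _⟩ := id h'
  have n1 : u ≠ p := by rintro rfl; exact hab (ha.symm.trans hp')
  have n2 : u ≠ q := by rintro rfl; exact hab (ha.symm.trans hq')
  have n3 : v ≠ p := by rintro rfl; exact hab (hb.symm.trans hp')
  have n4 : v ≠ q := by rintro rfl; exact hab (hb.symm.trans hq')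
  refine hK u v p q huv n1 n2 n3 n4 hpq ⟨?_, ?_, ?_, ?_⟩
  · exact pD_use hc h hu hv hp huv ha hb hp'
  · exact pD_use hc h hu hv hq huv ha hb hq'
  · rw [tri_swap, tri_swap']
    exact pD_use hc h' hp hq hu hpq hp' hq' ha
  · rw [tri_swap, tri_swap']
    exact pD_use hc h' hp hq hv hpq hp' hq' hb

theorem pD_pT (hK : K43Free H) (hc : Homog H W c) (a b d : ι) (hbd : b ≠ d) (h : pD H W c a b)
    (h' : pD H W c a d) : ¬ pT H W c a b d := by
  intro hT
  obtain ⟨hab, u, hu, v, hv, p, hp, huv, ha, hb, hp', _⟩ := id h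
  obtain ⟨had, _, _, _, _, q, hq, _, _, _, hq', _⟩ := id h'
  have n1 : u ≠ p := by rintro rfl; exact hab (ha.symm.trans hp')
  have n2 : u ≠ q := by rintro rfl; exact had (ha.symm.trans hq')
  have n3 : v ≠ p := by rintro rfl; exact hab (hb.symm.trans hp')
  have n4 : v ≠ q := by rintro rfl; exact had (hb.symm.trans hq')
  have n5 : p ≠ q := by rintro rfl; exact hbd (hp'.symm.trans hq')
  refine hK u v p q huv n1 n2 n3 n4 n5 ⟨?_, ?_, ?_, ?_⟩
  · exact pD_use hc h hu hv hp huv ha hb hp'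
  · exact pD_use hc h' hu hv hq huv ha hb hq'
  · exact pT_use hc hT hu hp hq ha hp' hq'
  · exact pT_use hc hT hv hp hq hb hp' hq'

theorem pT_four (hK : K43Free H) (hc : Homog H W c) (i j k l : ι) (n1 : i ≠ j) (n2 : i ≠ k)
    (n3 : i ≠ l) (n4 : j ≠ k) (n5 : j ≠ l) (n6 : k ≠ l) :
    ¬ (pT H W c i j k ∧ pT H W c i j l ∧ pT H W c i k l ∧ pT H W c j k l) := by
  rintro ⟨h1, h2, h3, h4⟩
  obtain ⟨_, _, _, u, hu, v, hv, w, hw, eu, ev, ew, _⟩ := id h1
  obtain ⟨_, _, _, _, _, _, _, z, hz, _, _, ez, _⟩ := id h2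
  have ne : ∀ {x y : V} {a b : ι}, c x = a → c y = b → a ≠ b → x ≠ y := by
    rintro x y a b rfl rfl h rfl
    exact h rfl
  refine hK u v w z (ne eu ev n1) (ne eu ew n2) (ne eu ez n3) (ne ev ew n4) (ne ev ez n5)
    (ne ew ez n6) ⟨?_, ?_, ?_, ?_⟩
  · exact pT_use hc h1 hu hv hw eu ev ew
  · exact pT_use hc h2 hu hv hz eu ev ez
  · exact pT_use hc h3 hu hw hz eu ew ez
  · exact pT_use hc h4 hv hw hz ev ew ez

/-- a class with an arc leaving it contains no edge -/
theorem no_inner (hK : K43Free H) (hc : Homog H W c) {a b : ι} (h : pD H W c a b) {u v w : V}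
    (hu : u ∈ W) (hv : v ∈ W) (hw : w ∈ W) (huv : u ≠ v) (huw : u ≠ w) (hvw : v ≠ w)
    (eu : c u = a) (ev : c v = a) (ew : c w = a) : ({u, v, w} : Finset V) ∉ H := by
  intro he
  obtain ⟨hab, _, _, _, _, p, hp, _, _, _, hp', _⟩ := id h
  have ne : ∀ {x : V}, c x = a → x ≠ p := by
    rintro x hx rfl
    exact hab (hx.symm.trans hp')
  exact hK u v w p huv huw (ne eu) hvw (ne ev) (ne ew)
    ⟨he, pD_use hc h hu hv hp huv eu ev hp', pD_use hc h hu hw hp huw eu ew hp',
      pD_use hc h hv hw hp hvw ev ew hp'⟩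

end

/-- the edge types of the pattern cover the edges -/
theorem edge_of_mem {H : Finset (Finset V)} (hH : ∀ e ∈ H, e.card = 3) {W : Finset V}
    {c : V → Fin 5} {u v w : V} (hu : u ∈ W) (hv : v ∈ W) (hw : w ∈ W)
    (hn : ¬ (c u = c v ∧ c v = c w)) (h : ({u, v, w} : Finset V) ∈ H) :
    Edge (pD H W c) (pT H W c) (c u) (c v) (c w) := by
  obtain ⟨n1, n2, n3⟩ := ne_of_triple (hH _ h)
  unfold Edge
  by_cases h1 : c u = c v
  · have h2 : c v ≠ c w := fun h2 => hn ⟨h1, h2⟩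
    refine Or.inl ⟨h1, h2, ?_⟩
    exact ⟨by rw [h1]; exact h2, u, hu, v, hv, w, hw, n1, rfl, h1.symm, rfl, h⟩
  · by_cases h2 : c u = c w
    · refine Or.inr (Or.inl ⟨h2, h1, ?_⟩)
      exact ⟨h1, u, hu, w, hw, v, hv, n2, rfl, h2.symm, rfl, by rw [tri_swap']; exact h⟩
    · by_cases h3 : c v = c w
      · refine Or.inr (Or.inr (Or.inl ⟨h3, h1, ?_⟩))
        exact ⟨Ne.symm h1, v, hv, w, hw, u, hu, n3, rfl, h3.symm, rfl, by
          rw [tri_swap', tri_swap]; exact h⟩
      · refine Or.inr (Or.inr (Or.inr ⟨h1, h2, h3, ?_⟩))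
        exact ⟨h1, h2, h3, u, hu, v, hv, w, hw, rfl, rfl, rfl, h⟩

/-- **Substitution into at most five classes keeps the bound `54 |H| ≤ 5 n ^ 3`.** -/
theorem closure5 {H : Finset (Finset V)} (hH : ∀ e ∈ H, e.card = 3) (hK : K43Free H)
    (W : Finset V) (c : V → Fin 5) (hc : Homog H W c)
    (hW : ∀ a, 54 * (inside H (W.filter fun u => c u = a)).card ≤
      5 * (W.filter fun u => c u = a).card ^ 3) :
    54 * (inside H W).card ≤ 5 * W.card ^ 3 := by
  classical
  have key : 9 * hh H W ≤ 5 * (W.card : ℤ) ^ 3 := by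
    apply bound_of_form H W c (co (pD H W c) (pT H W c))
    · intro u hu v hv w hw hn
      unfold co
      rw [if_neg hn]
      by_cases h : ({u, v, w} : Finset V) ∈ H
      · rw [if_pos h, if_pos (edge_of_mem hH hu hv hw hn h)]
        norm_num
      · rw [if_neg h]
        split_ifs <;> norm_num
    · intro a
      have e : co (pD H W c) (pT H W c) a a a = if ∃ j, pD H W c a j then 5 else 0 := by
        unfold co
        rw [if_pos ⟨rfl, rfl⟩]
      rw [e]
      by_cases h : ∃ j, pD H W c a j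
      · obtain ⟨j, hj⟩ := h
        rw [if_pos ⟨j, hj⟩]
        have h0 : hh H (W.filter fun u => c u = a) = 0 := by
          unfold hh
          refine sum_eq_zero fun u hu => sum_eq_zero fun v hv => sum_eq_zero fun w hw => ?_
          rw [if_neg]
          intro he
          obtain ⟨n1, n2, n3⟩ := ne_of_triple (hH _ he)
          obtain ⟨hu1, hu2⟩ := mem_filter.1 hu
          obtain ⟨hv1, hv2⟩ := mem_filter.1 hv
          obtain ⟨hw1, hw2⟩ := mem_filter.1 hw
          exact no_inner hK hc hj hu1 hv1 hw1 n1 n2 n3 hu2 hv2 hw2 he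
        rw [h0]
        simp
      · rw [if_neg h, six_inside hH]
        have h1 : (54 * ((inside H (W.filter fun u => c u = a)).card : ℤ)) ≤
            5 * ((W.filter fun u => c u = a).card : ℤ) ^ 3 := by exact_mod_cast hW a
        linarith
    · exact form_nonneg (pD H W c) (pT H W c) (pD_asymm hK hc) (fun _ _ _ => pT_swap)
        (fun _ _ _ => pT_swap') (pD_pT hK hc) (pT_four hK hc)
        (fun a => ((W.filter fun u => c u = a).card : ℤ)) (fun a => Int.natCast_nonneg _)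
  rw [six_inside hH] at key
  have : (54 * ((inside H W).card : ℤ)) ≤ 5 * (W.card : ℤ) ^ 3 := by linarith
  exact_mod_cast this

end Pool.Agent.V641.TS
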