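import Pool.Agent.V641.TS.Cv
import Pool.Agent.V641.TS.D00
import Pool.Agent.V641.TS.D01
import Pool.Agent.V641.TS.D02
import Pool.Agent.V641.TS.D03
import Pool.Agent.V641.TS.D04
import Pool.Agent.V641.TS.D05
import Pool.Agent.V641.TS.D06
import Pool.Agent.V641.TS.D07
import Pool.Agent.V641.TS.D08
import Pool.Agent.V641.TS.D09
import Pool.Agent.V641.TS.D10
import Pool.Agent.V641.TS.D11

/-!
Every digraph on five vertices is, up to the numbering of its vertices, in the list of certificates.
-/

set_option autoImplicit false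
set_option maxRecDepth 100000

namespace Pool.Agent.V641.TS

/-- all certificates -/
def dats : List (ℕ × List (ℕ × ℕ)) := dat00 ++ (dat01 ++ (dat02 ++ (dat03 ++ (dat04 ++ (dat05 ++ (dat06 ++ (dat07 ++ (dat08 ++ (dat09 ++ (dat10 ++ (dat11)))))))))))

theorem okAll : ∀ r ∈ dats, okR r = true := by
  intro r hr
  unfold dats at hr
  simp only [List.mem_append] at hr
  rcases hr with h | h | h | h | h | h | h | h | h | h | h | h
  · exact okL_mem ok00 r h
  · exact okL_mem ok01 r h
  · exact okL_mem ok02 r h
  · exact okL_mem ok03 r h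
  · exact okL_mem ok04 r h
  · exact okL_mem ok05 r h
  · exact okL_mem ok06 r h
  · exact okL_mem ok07 r h
  · exact okL_mem ok08 r h
  · exact okL_mem ok09 r h
  · exact okL_mem ok10 r h
  · exact okL_mem ok11 r h

def full (k : ℕ) : ℕ := Nat.sub (Nat.pow 2 k) 1

theorem covAll : Nat.beq (covL (dats.map Prod.fst) 0) (full 59049) = true := by
  decide +kernel

theorem full_testBit (k n : ℕ) (h : n < k) : (full k).testBit n = true := by
  have e : full k = 2 ^ k - 1 := rfl
  rw [e, Nat.testBit_two_pow_sub_one]
  exact decide_eq_true h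

theorem covered (n : ℕ) (hn : n < 59049) : ∃ r ∈ dats, (orb r.1).testBit n = true := by
  have h := Nat.eq_of_beq_eq_true covAll
  have h1 : (covL (dats.map Prod.fst) 0).testBit n = true := by
    rw [h]
    exact full_testBit 59049 n hn
  rcases testBit_covL n _ _ h1 with h2 | ⟨A, hA, h2⟩
  · simp at h2
  · obtain ⟨r, hr, rfl⟩ := List.mem_map.1 hA
    exact ⟨r, hr, h2⟩

end Pool.Agent.V641.TS
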