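import Pool.Agent.V641.TS.Pt

/-!
Every digraph on five vertices is, up to the numbering of its vertices, one of a list: the check.
-/

set_option autoImplicit false
set_option maxRecDepth 100000

namespace Pool.Agent.V641.TS

/-- the digit of a pair: `1` for the arc `a → b`, `2` for the arc `b → a`, `3` for both -/
def qd (A a b : ℕ) : ℕ := cond (arc A a b) (cond (arc A b a) 3 1) (cond (arc A b a) 2 0)

/-- all digits in one number -/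
def qmat (A : ℕ) : ℕ :=
  Nat.rec 0 (fun m r => Nat.add r (Nat.mul (qd A (Nat.div m 5) (Nat.mod m 5))
    (Nat.pow 4 m))) 25

/-- the check of the digits -/
def qchk (A Q : ℕ) : Bool :=
  Nat.rec true (fun m r => (Nat.beq (Nat.land (Nat.shiftRight Q (Nat.mul 2 m)) 3)
    (qd A (Nat.div m 5) (Nat.mod m 5)) && Nat.ble (qd A (Nat.div m 5) (Nat.mod m 5)) 2) && r) 25

theorem qchk_aux (A Q : ℕ) : ∀ n, (Nat.rec true (fun m r =>
    (Nat.beq (Nat.land (Nat.shiftRight Q (Nat.mul 2 m)) 3)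
    (qd A (Nat.div m 5) (Nat.mod m 5)) && Nat.ble (qd A (Nat.div m 5) (Nat.mod m 5)) 2) && r) n :
      Bool) = true → ∀ m < n,
    (Q >>> (2 * m)) &&& 3 = qd A (m / 5) (m % 5) ∧ qd A (m / 5) (m % 5) ≤ 2 := by
  intro n
  induction n with
  | zero => intro _ m hm; omega
  | succ n ih =>
    intro h m hm
    rw [Bool.and_eq_true] at h
    rcases Nat.lt_succ_iff_lt_or_eq.1 hm with h1 | h1
    · exact ih h.2 m h1
    · subst h1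
      have h2 := h.1
      rw [Bool.and_eq_true] at h2
      exact ⟨Nat.eq_of_beq_eq_true h2.1, Nat.le_of_ble_eq_true h2.2⟩

theorem qchk_le {A Q : ℕ} (h : qchk A Q = true) (a b : ℕ) (ha : a < 5) (hb : b < 5) :
    qd A a b < 3 := by
  have h1 := (qchk_aux A Q 25 h (5 * a + b) (by omega)).2
  rw [show (5 * a + b) / 5 = a by omega, show (5 * a + b) % 5 = b by omega] at h1
  omega

theorem qchk_ok {A Q : ℕ} (h : qchk A Q = true) (a b : ℕ) (ha : a < 5) (hb : b < 5) :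
    (Q >>> (2 * (5 * a + b))) &&& 3 = qd A a b := by
  have h1 := (qchk_aux A Q 25 h (5 * a + b) (by omega)).1
  rw [show (5 * a + b) / 5 = a by omega, show (5 * a + b) % 5 = b by omega] at h1
  exact h1

/-- the code of the renumbered digraph -/
noncomputable def codeT (t : List ℕ) (Q acc : ℕ) : ℕ :=
  List.rec (fun acc => acc) (fun s _ ih acc =>
    ih (Nat.add (Nat.mul acc 3) (Nat.land (Nat.shiftRight Q s) 3))) t acc

theorem codeT_cons (s : ℕ) (t : List ℕ) (Q acc : ℕ) :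
    codeT (s :: t) Q acc = codeT t Q (acc * 3 + ((Q >>> s) &&& 3)) := rfl

noncomputable def orP (ps : List (List ℕ × List ℕ)) (Q : ℕ) : ℕ :=
  List.rec 0 (fun t _ r => Nat.lor (Nat.shiftLeft 1 (codeT t.2 Q 0)) r) ps

/-- the shifts of a renumbering -/
def shf (t : List ℕ) : List ℕ :=
  [2 * (5 * t.getD 3 0 + t.getD 4 0), 2 * (5 * t.getD 2 0 + t.getD 4 0),
   2 * (5 * t.getD 1 0 + t.getD 4 0), 2 * (5 * t.getD 0 0 + t.getD 4 0),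
   2 * (5 * t.getD 2 0 + t.getD 3 0), 2 * (5 * t.getD 1 0 + t.getD 3 0),
   2 * (5 * t.getD 0 0 + t.getD 3 0), 2 * (5 * t.getD 1 0 + t.getD 2 0),
   2 * (5 * t.getD 0 0 + t.getD 2 0), 2 * (5 * t.getD 0 0 + t.getD 1 0)]

/-- the renumberings -/
def ptab : List (List ℕ × List ℕ) := [
  ([0, 1, 2, 3, 4], [38, 28, 18, 8, 26, 16, 6, 14, 4, 2]),
  ([0, 1, 2, 4, 3], [46, 26, 16, 6, 28, 18, 8, 14, 4, 2]),
  ([0, 1, 3, 2, 4], [28, 38, 18, 8, 34, 14, 4, 16, 6, 2]),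
  ([0, 1, 3, 4, 2], [44, 34, 14, 4, 38, 18, 8, 16, 6, 2]),
  ([0, 1, 4, 2, 3], [26, 46, 16, 6, 44, 14, 4, 18, 8, 2]),
  ([0, 1, 4, 3, 2], [34, 44, 14, 4, 46, 16, 6, 18, 8, 2]),
  ([0, 2, 1, 3, 4], [38, 18, 28, 8, 16, 26, 6, 22, 2, 4]),
  ([0, 2, 1, 4, 3], [46, 16, 26, 6, 18, 28, 8, 22, 2, 4]),
  ([0, 2, 3, 1, 4], [18, 38, 28, 8, 32, 22, 2, 26, 6, 4]),
  ([0, 2, 3, 4, 1], [42, 32, 22, 2, 38, 28, 8, 26, 6, 4]),
  ([0, 2, 4, 1, 3], [16, 46, 26, 6, 42, 22, 2, 28, 8, 4]),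
  ([0, 2, 4, 3, 1], [32, 42, 22, 2, 46, 26, 6, 28, 8, 4]),
  ([0, 3, 1, 2, 4], [28, 18, 38, 8, 14, 34, 4, 32, 2, 6]),
  ([0, 3, 1, 4, 2], [44, 14, 34, 4, 18, 38, 8, 32, 2, 6]),
  ([0, 3, 2, 1, 4], [18, 28, 38, 8, 22, 32, 2, 34, 4, 6]),
  ([0, 3, 2, 4, 1], [42, 22, 32, 2, 28, 38, 8, 34, 4, 6]),
  ([0, 3, 4, 1, 2], [14, 44, 34, 4, 42, 32, 2, 38, 8, 6]),
  ([0, 3, 4, 2, 1], [22, 42, 32, 2, 44, 34, 4, 38, 8, 6]),
  ([0, 4, 1, 2, 3], [26, 16, 46, 6, 14, 44, 4, 42, 2, 8]),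
  ([0, 4, 1, 3, 2], [34, 14, 44, 4, 16, 46, 6, 42, 2, 8]),
  ([0, 4, 2, 1, 3], [16, 26, 46, 6, 22, 42, 2, 44, 4, 8]),
  ([0, 4, 2, 3, 1], [32, 22, 42, 2, 26, 46, 6, 44, 4, 8]),
  ([0, 4, 3, 1, 2], [14, 34, 44, 4, 32, 42, 2, 46, 6, 8]),
  ([0, 4, 3, 2, 1], [22, 32, 42, 2, 34, 44, 4, 46, 6, 8]),
  ([1, 0, 2, 3, 4], [38, 28, 8, 18, 26, 6, 16, 4, 14, 10]),
  ([1, 0, 2, 4, 3], [46, 26, 6, 16, 28, 8, 18, 4, 14, 10]),
  ([1, 0, 3, 2, 4], [28, 38, 8, 18, 34, 4, 14, 6, 16, 10]),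
  ([1, 0, 3, 4, 2], [44, 34, 4, 14, 38, 8, 18, 6, 16, 10]),
  ([1, 0, 4, 2, 3], [26, 46, 6, 16, 44, 4, 14, 8, 18, 10]),
  ([1, 0, 4, 3, 2], [34, 44, 4, 14, 46, 6, 16, 8, 18, 10]),
  ([1, 2, 0, 3, 4], [38, 8, 28, 18, 6, 26, 16, 20, 10, 14]),
  ([1, 2, 0, 4, 3], [46, 6, 26, 16, 8, 28, 18, 20, 10, 14]),
  ([1, 2, 3, 0, 4], [8, 38, 28, 18, 30, 20, 10, 26, 16, 14]),
  ([1, 2, 3, 4, 0], [40, 30, 20, 10, 38, 28, 18, 26, 16, 14]),
  ([1, 2, 4, 0, 3], [6, 46, 26, 16, 40, 20, 10, 28, 18, 14]),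
  ([1, 2, 4, 3, 0], [30, 40, 20, 10, 46, 26, 16, 28, 18, 14]),
  ([1, 3, 0, 2, 4], [28, 8, 38, 18, 4, 34, 14, 30, 10, 16]),
  ([1, 3, 0, 4, 2], [44, 4, 34, 14, 8, 38, 18, 30, 10, 16]),
  ([1, 3, 2, 0, 4], [8, 28, 38, 18, 20, 30, 10, 34, 14, 16]),
  ([1, 3, 2, 4, 0], [40, 20, 30, 10, 28, 38, 18, 34, 14, 16]),
  ([1, 3, 4, 0, 2], [4, 44, 34, 14, 40, 30, 10, 38, 18, 16]),
  ([1, 3, 4, 2, 0], [20, 40, 30, 10, 44, 34, 14, 38, 18, 16]),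
  ([1, 4, 0, 2, 3], [26, 6, 46, 16, 4, 44, 14, 40, 10, 18]),
  ([1, 4, 0, 3, 2], [34, 4, 44, 14, 6, 46, 16, 40, 10, 18]),
  ([1, 4, 2, 0, 3], [6, 26, 46, 16, 20, 40, 10, 44, 14, 18]),
  ([1, 4, 2, 3, 0], [30, 20, 40, 10, 26, 46, 16, 44, 14, 18]),
  ([1, 4, 3, 0, 2], [4, 34, 44, 14, 30, 40, 10, 46, 16, 18]),
  ([1, 4, 3, 2, 0], [20, 30, 40, 10, 34, 44, 14, 46, 16, 18]),
  ([2, 0, 1, 3, 4], [38, 18, 8, 28, 16, 6, 26, 2, 22, 20]),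
  ([2, 0, 1, 4, 3], [46, 16, 6, 26, 18, 8, 28, 2, 22, 20]),
  ([2, 0, 3, 1, 4], [18, 38, 8, 28, 32, 2, 22, 6, 26, 20]),
  ([2, 0, 3, 4, 1], [42, 32, 2, 22, 38, 8, 28, 6, 26, 20]),
  ([2, 0, 4, 1, 3], [16, 46, 6, 26, 42, 2, 22, 8, 28, 20]),
  ([2, 0, 4, 3, 1], [32, 42, 2, 22, 46, 6, 26, 8, 28, 20]),
  ([2, 1, 0, 3, 4], [38, 8, 18, 28, 6, 16, 26, 10, 20, 22]),
  ([2, 1, 0, 4, 3], [46, 6, 16, 26, 8, 18, 28, 10, 20, 22]),
  ([2, 1, 3, 0, 4], [8, 38, 18, 28, 30, 10, 20, 16, 26, 22]),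
  ([2, 1, 3, 4, 0], [40, 30, 10, 20, 38, 18, 28, 16, 26, 22]),
  ([2, 1, 4, 0, 3], [6, 46, 16, 26, 40, 10, 20, 18, 28, 22]),
  ([2, 1, 4, 3, 0], [30, 40, 10, 20, 46, 16, 26, 18, 28, 22]),
  ([2, 3, 0, 1, 4], [18, 8, 38, 28, 2, 32, 22, 30, 20, 26]),
  ([2, 3, 0, 4, 1], [42, 2, 32, 22, 8, 38, 28, 30, 20, 26]),
  ([2, 3, 1, 0, 4], [8, 18, 38, 28, 10, 30, 20, 32, 22, 26]),
  ([2, 3, 1, 4, 0], [40, 10, 30, 20, 18, 38, 28, 32, 22, 26]),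
  ([2, 3, 4, 0, 1], [2, 42, 32, 22, 40, 30, 20, 38, 28, 26]),
  ([2, 3, 4, 1, 0], [10, 40, 30, 20, 42, 32, 22, 38, 28, 26]),
  ([2, 4, 0, 1, 3], [16, 6, 46, 26, 2, 42, 22, 40, 20, 28]),
  ([2, 4, 0, 3, 1], [32, 2, 42, 22, 6, 46, 26, 40, 20, 28]),
  ([2, 4, 1, 0, 3], [6, 16, 46, 26, 10, 40, 20, 42, 22, 28]),
  ([2, 4, 1, 3, 0], [30, 10, 40, 20, 16, 46, 26, 42, 22, 28]),
  ([2, 4, 3, 0, 1], [2, 32, 42, 22, 30, 40, 20, 46, 26, 28]),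
  ([2, 4, 3, 1, 0], [10, 30, 40, 20, 32, 42, 22, 46, 26, 28]),
  ([3, 0, 1, 2, 4], [28, 18, 8, 38, 14, 4, 34, 2, 32, 30]),
  ([3, 0, 1, 4, 2], [44, 14, 4, 34, 18, 8, 38, 2, 32, 30]),
  ([3, 0, 2, 1, 4], [18, 28, 8, 38, 22, 2, 32, 4, 34, 30]),
  ([3, 0, 2, 4, 1], [42, 22, 2, 32, 28, 8, 38, 4, 34, 30]),
  ([3, 0, 4, 1, 2], [14, 44, 4, 34, 42, 2, 32, 8, 38, 30]),
  ([3, 0, 4, 2, 1], [22, 42, 2, 32, 44, 4, 34, 8, 38, 30]),
  ([3, 1, 0, 2, 4], [28, 8, 18, 38, 4, 14, 34, 10, 30, 32]),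
  ([3, 1, 0, 4, 2], [44, 4, 14, 34, 8, 18, 38, 10, 30, 32]),
  ([3, 1, 2, 0, 4], [8, 28, 18, 38, 20, 10, 30, 14, 34, 32]),
  ([3, 1, 2, 4, 0], [40, 20, 10, 30, 28, 18, 38, 14, 34, 32]),
  ([3, 1, 4, 0, 2], [4, 44, 14, 34, 40, 10, 30, 18, 38, 32]),
  ([3, 1, 4, 2, 0], [20, 40, 10, 30, 44, 14, 34, 18, 38, 32]),
  ([3, 2, 0, 1, 4], [18, 8, 28, 38, 2, 22, 32, 20, 30, 34]),
  ([3, 2, 0, 4, 1], [42, 2, 22, 32, 8, 28, 38, 20, 30, 34]),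
  ([3, 2, 1, 0, 4], [8, 18, 28, 38, 10, 20, 30, 22, 32, 34]),
  ([3, 2, 1, 4, 0], [40, 10, 20, 30, 18, 28, 38, 22, 32, 34]),
  ([3, 2, 4, 0, 1], [2, 42, 22, 32, 40, 20, 30, 28, 38, 34]),
  ([3, 2, 4, 1, 0], [10, 40, 20, 30, 42, 22, 32, 28, 38, 34]),
  ([3, 4, 0, 1, 2], [14, 4, 44, 34, 2, 42, 32, 40, 30, 38]),
  ([3, 4, 0, 2, 1], [22, 2, 42, 32, 4, 44, 34, 40, 30, 38]),
  ([3, 4, 1, 0, 2], [4, 14, 44, 34, 10, 40, 30, 42, 32, 38]),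
  ([3, 4, 1, 2, 0], [20, 10, 40, 30, 14, 44, 34, 42, 32, 38]),
  ([3, 4, 2, 0, 1], [2, 22, 42, 32, 20, 40, 30, 44, 34, 38]),
  ([3, 4, 2, 1, 0], [10, 20, 40, 30, 22, 42, 32, 44, 34, 38]),
  ([4, 0, 1, 2, 3], [26, 16, 6, 46, 14, 4, 44, 2, 42, 40]),
  ([4, 0, 1, 3, 2], [34, 14, 4, 44, 16, 6, 46, 2, 42, 40]),
  ([4, 0, 2, 1, 3], [16, 26, 6, 46, 22, 2, 42, 4, 44, 40]),
  ([4, 0, 2, 3, 1], [32, 22, 2, 42, 26, 6, 46, 4, 44, 40]),
  ([4, 0, 3, 1, 2], [14, 34, 4, 44, 32, 2, 42, 6, 46, 40]),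
  ([4, 0, 3, 2, 1], [22, 32, 2, 42, 34, 4, 44, 6, 46, 40]),
  ([4, 1, 0, 2, 3], [26, 6, 16, 46, 4, 14, 44, 10, 40, 42]),
  ([4, 1, 0, 3, 2], [34, 4, 14, 44, 6, 16, 46, 10, 40, 42]),
  ([4, 1, 2, 0, 3], [6, 26, 16, 46, 20, 10, 40, 14, 44, 42]),
  ([4, 1, 2, 3, 0], [30, 20, 10, 40, 26, 16, 46, 14, 44, 42]),
  ([4, 1, 3, 0, 2], [4, 34, 14, 44, 30, 10, 40, 16, 46, 42]),
  ([4, 1, 3, 2, 0], [20, 30, 10, 40, 34, 14, 44, 16, 46, 42]),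
  ([4, 2, 0, 1, 3], [16, 6, 26, 46, 2, 22, 42, 20, 40, 44]),
  ([4, 2, 0, 3, 1], [32, 2, 22, 42, 6, 26, 46, 20, 40, 44]),
  ([4, 2, 1, 0, 3], [6, 16, 26, 46, 10, 20, 40, 22, 42, 44]),
  ([4, 2, 1, 3, 0], [30, 10, 20, 40, 16, 26, 46, 22, 42, 44]),
  ([4, 2, 3, 0, 1], [2, 32, 22, 42, 30, 20, 40, 26, 46, 44]),
  ([4, 2, 3, 1, 0], [10, 30, 20, 40, 32, 22, 42, 26, 46, 44]),
  ([4, 3, 0, 1, 2], [14, 4, 34, 44, 2, 32, 42, 30, 40, 46]),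
  ([4, 3, 0, 2, 1], [22, 2, 32, 42, 4, 34, 44, 30, 40, 46]),
  ([4, 3, 1, 0, 2], [4, 14, 34, 44, 10, 30, 40, 32, 42, 46]),
  ([4, 3, 1, 2, 0], [20, 10, 30, 40, 14, 34, 44, 32, 42, 46]),
  ([4, 3, 2, 0, 1], [2, 22, 32, 42, 20, 30, 40, 34, 44, 46]),
  ([4, 3, 2, 1, 0], [10, 20, 30, 40, 22, 32, 42, 34, 44, 46])]

theorem ptab_ok : ∀ p ∈ ptab, p.2 = shf p.1 ∧ p.1.length = 5 ∧ p.1.Nodup ∧ ∀ x ∈ p.1, x < 5 := by
  decide +kernel

theorem testBit_orP (Q n : ℕ) : ∀ ps : List (List ℕ × List ℕ), (orP ps Q).testBit n = true →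
    ∃ p ∈ ps, codeT p.2 Q 0 = n := by
  intro ps
  induction ps with
  | nil =>
    intro h
    have h' : (0 : ℕ).testBit n = true := h
    simp at h'
  | cons p ps ih =>
    intro h
    have h' : ((1 <<< (codeT p.2 Q 0)) ||| orP ps Q).testBit n = true := h
    rw [Nat.testBit_or, Bool.or_eq_true] at h'
    rcases h' with h1 | h1
    · refine ⟨p, List.mem_cons_self, ?_⟩
      rw [Nat.shiftLeft_eq, one_mul, Nat.testBit_two_pow] at h1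
      simpa using h1
    · obtain ⟨q, hq, h2⟩ := ih h1
      exact ⟨q, List.mem_cons_of_mem _ hq, h2⟩

/-- the codes of all renumberings of one digraph (without loops and pairs of opposite arcs) -/
noncomputable def orb (A : ℕ) : ℕ :=
  fz (qmat A) fun Q => cond (qchk A Q) (orP ptab Q) 0

theorem testBit_orb {A n : ℕ} (h : (orb A).testBit n = true) :
    (∃ p ∈ ptab, codeT p.2 (qmat A) 0 = n) ∧ qchk A (qmat A) = true := by
  unfold orb at h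
  rw [fz_eq] at h
  cases hc : qchk A (qmat A) with
  | false => rw [hc] at h; simp at h
  | true =>
    rw [hc, cond_true] at h
    exact ⟨testBit_orP _ _ _ h, rfl⟩

noncomputable def covL (As : List ℕ) (acc : ℕ) : ℕ :=
  List.rec (fun acc => acc) (fun A _ ih acc => fh (Nat.lor acc (orb A)) ih) As acc

theorem covL_cons (A : ℕ) (As : List ℕ) (acc : ℕ) : covL (A :: As) acc =
    fh (Nat.lor acc (orb A)) (covL As) := rfl

theorem testBit_covL (n : ℕ) : ∀ (As : List ℕ) (acc : ℕ), (covL As acc).testBit n = true →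
    acc.testBit n = true ∨ ∃ A ∈ As, (orb A).testBit n = true := by
  intro As
  induction As with
  | nil => intro acc h; exact Or.inl h
  | cons A As ih =>
    intro acc h
    rw [covL_cons, fh_eq] at h
    rcases ih _ h with h1 | ⟨B, hB, h1⟩
    · have h2 : (acc ||| orb A).testBit n = true := h1
      rw [Nat.testBit_or, Bool.or_eq_true] at h2
      rcases h2 with h3 | h3
      · exact Or.inl h3
      · exact Or.inr ⟨A, List.mem_cons_self, h3⟩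
    · exact Or.inr ⟨B, List.mem_cons_of_mem _ hB, h1⟩

/-- digits are unique -/
theorem foldl_inj : ∀ (l l' : List ℕ), l.length = l'.length → (∀ d ∈ l, d < 3) → (∀ d ∈ l', d < 3) →
    ∀ a a' : ℕ, l.foldl (fun acc d => acc * 3 + d) a = l'.foldl (fun acc d => acc * 3 + d) a' →
    a = a' ∧ l = l' := by
  intro l
  induction l with
  | nil =>
    intro l' hl _ _ a a' h
    have : l' = [] := List.eq_nil_of_length_eq_zero (by simpa using hl.symm)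
    subst this
    exact ⟨h, rfl⟩
  | cons d l ih =>
    intro l' hl h1 h2 a a' h
    cases l' with
    | nil => simp at hl
    | cons d' l' =>
      rw [List.foldl_cons, List.foldl_cons] at h
      have h3 := ih l' (by simpa using hl) (fun x hx => h1 x (List.mem_cons_of_mem _ hx))
        (fun x hx => h2 x (List.mem_cons_of_mem _ hx)) _ _ h
      have h4 := h1 d List.mem_cons_self
      have h5 := h2 d' List.mem_cons_self
      have h6 := h3.1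
      have h7 : a = a' ∧ d = d' := by omega
      exact ⟨h7.1, by rw [h7.2, h3.2]⟩

theorem codeT_foldl (Q : ℕ) : ∀ (t : List ℕ) (acc : ℕ), codeT t Q acc =
    (t.map fun s => (Q >>> s) &&& 3).foldl (fun acc d => acc * 3 + d) acc := by
  intro t
  induction t with
  | nil => intro acc; rfl
  | cons s t ih => intro acc; rw [codeT_cons, ih, List.map_cons, List.foldl_cons]

/-- the digits of a function of pairs -/
def dl (e : ℕ → ℕ → ℕ) : List ℕ :=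
  [e 3 4, e 2 4, e 1 4, e 0 4, e 2 3, e 1 3, e 0 3, e 1 2, e 0 2, e 0 1]

theorem dl_lt {e : ℕ → ℕ → ℕ} (he : ∀ a b, e a b < 3) :
    (dl e).foldl (fun acc d => acc * 3 + d) 0 < 59049 := by
  simp only [dl, List.foldl_cons, List.foldl_nil]
  have h0 := he 3 4
  have h1 := he 2 4
  have h2 := he 1 4
  have h3 := he 0 4
  have h4 := he 2 3
  have h5 := he 1 3
  have h6 := he 0 3
  have h7 := he 1 2
  have h8 := he 0 2
  have h9 := he 0 1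
  omega

/-- **a code in the table comes from a renumbering** -/
theorem exists_perm {A : ℕ} {e : ℕ → ℕ → ℕ} (he : ∀ a b, e a b < 3)
    (h : (orb A).testBit ((dl e).foldl (fun acc d => acc * 3 + d) 0) = true) :
    (∀ a < 5, ∀ b < 5, qd A a b < 3) ∧ ∃ t : List ℕ, t.length = 5 ∧ t.Nodup ∧ (∀ x ∈ t, x < 5) ∧
      ∀ i j, i < j → j < 5 → e i j = qd A (t.getD i 0) (t.getD j 0) := by
  obtain ⟨⟨p, hp, h1⟩, h2⟩ := testBit_orb h
  obtain ⟨h4, h5, h6, h7⟩ := ptab_ok p hp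
  refine ⟨fun a ha b hb => qchk_le h2 a b ha hb, p.1, h5, h6, h7, ?_⟩
  have hlt : ∀ i < 5, p.1.getD i 0 < 5 := by
    intro i hi
    rw [List.getD_eq_getElem _ _ (by omega)]
    exact h7 _ (List.getElem_mem _)
  rw [h4, codeT_foldl] at h1
  have e1 : (shf p.1).map (fun s => (qmat A >>> s) &&& 3) =
      dl fun i j => qd A (p.1.getD i 0) (p.1.getD j 0) := by
    unfold shf dl
    simp only [List.map_cons, List.map_nil]
    rw [qchk_ok h2 _ _ (hlt 3 (by omega)) (hlt 4 (by omega)),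
      qchk_ok h2 _ _ (hlt 2 (by omega)) (hlt 4 (by omega)),
      qchk_ok h2 _ _ (hlt 1 (by omega)) (hlt 4 (by omega)),
      qchk_ok h2 _ _ (hlt 0 (by omega)) (hlt 4 (by omega)),
      qchk_ok h2 _ _ (hlt 2 (by omega)) (hlt 3 (by omega)),
      qchk_ok h2 _ _ (hlt 1 (by omega)) (hlt 3 (by omega)),
      qchk_ok h2 _ _ (hlt 0 (by omega)) (hlt 3 (by omega)),
      qchk_ok h2 _ _ (hlt 1 (by omega)) (hlt 2 (by omega)),
      qchk_ok h2 _ _ (hlt 0 (by omega)) (hlt 2 (by omega)),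
      qchk_ok h2 _ _ (hlt 0 (by omega)) (hlt 1 (by omega))]
  rw [e1] at h1
  have h8 := (foldl_inj _ _ (by rfl) (by
    intro d hd
    simp only [dl, List.mem_cons, List.not_mem_nil, or_false] at hd
    rcases hd with h | h | h | h | h | h | h | h | h | h <;> rw [h] <;>
      exact qchk_le h2 _ _ (hlt _ (by omega)) (hlt _ (by omega))) (by
    intro d hd
    simp only [dl, List.mem_cons, List.not_mem_nil, or_false] at hd
    rcases hd with h | h | h | h | h | h | h | h | h | h <;> rw [h] <;> exact he _ _) 0 0 h1).2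
  simp only [dl, List.cons.injEq, and_true] at h8
  intro i j hij hj
  obtain ⟨g0, g1, g2, g3, g4, g5, g6, g7, g8, g9⟩ := h8
  interval_cases j <;> interval_cases i <;> (symm; assumption)

end Pool.Agent.V641.TS
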