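import Pool.Agent.V641.TS.Clo
import Pool.Agent.H122R2.FdF.Defs

/-!
Substitution into the sinks of a Fon-der-Flaass pattern.
-/

set_option autoImplicit false

namespace Pool.Agent.V641.TS

open Finset

/-- joined by an arc -/
def Adj {ι : Type} (R : ι → ι → Prop) (a b : ι) : Prop := R a b ∨ R b a

/-- one of the three is joined by an arc to neither of the two others, or sends arcs to both -/
def FT {ι : Type} (R : ι → ι → Prop) (a b c : ι) : Prop :=
  (¬ Adj R a b ∧ ¬ Adj R a c) ∨ (¬ Adj R a b ∧ ¬ Adj R b c) ∨ (¬ Adj R a c ∧ ¬ Adj R b c) ∨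
    (R a b ∧ R a c) ∨ (R b a ∧ R b c) ∨ (R c a ∧ R c b)

/-- an oriented 3-cycle is put into every sink, three independent copies replace the others -/
def ref {ι : Type} (R : ι → ι → Prop) (p q : ι × Fin 3) : Prop :=
  R p.1 q.1 ∨ (p.1 = q.1 ∧ (∀ b, ¬ R p.1 b) ∧ q.2 = p.2 + 1)

theorem ref_oriented {ι : Type} {R : ι → ι → Prop} (hO : ∀ a b, R a b → ¬ R b a) :
    H122R2.FdF.Oriented (ref R) := by
  rintro ⟨a, i⟩ ⟨b, j⟩ h1 h2
  rcases h1 with h1 | ⟨h1, h3, h4⟩
  · rcases h2 with h2 | ⟨h2, h5, h6⟩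
    · exact hO _ _ h1 h2
    · dsimp only at h2 h1
      subst h2
      exact hO _ _ h1 h1
  · dsimp only at h1 h3 h4
    subst h1
    rcases h2 with h2 | ⟨h2, h5, h6⟩
    · exact h3 _ h2
    · dsimp only at h6
      rw [h4] at h6
      revert h6
      fin_cases i <;> decide

theorem ref_sink {ι : Type} {R : ι → ι → Prop} {p q : ι × Fin 3} (h : ref R p q)
    (hs : ∀ b, ¬ R p.1 b) : q.1 = p.1 ∧ q.2 = p.2 + 1 := by
  rcases h with h | ⟨h1, _, h3⟩
  · exact absurd h (hs _)
  · exact ⟨h1.symm, h3⟩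

theorem ref_four {ι : Type} {R : ι → ι → Prop} {p q r s : ι × Fin 3} (h1 : ref R p q)
    (h2 : ref R q r) (h3 : ref R r s) (h4 : ref R s p) (hs : ∀ b, ¬ R p.1 b) : False := by
  obtain ⟨e1, f1⟩ := ref_sink h1 hs
  obtain ⟨e2, f2⟩ := ref_sink h2 (by rw [e1]; exact hs)
  obtain ⟨e3, f3⟩ := ref_sink h3 (by rw [e2, e1]; exact hs)
  obtain ⟨e4, f4⟩ := ref_sink h4 (by rw [e3, e2, e1]; exact hs)
  rw [f3, f2, f1] at f4
  revert f4
  generalize p.2 = i
  fin_cases i <;> decide

theorem ref_C4 {ι : Type} {R : ι → ι → Prop}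
    (hC : ∀ a b c d, R a b → R b c → R c d → R d a → (R a c ∨ R c a ∨ R b d ∨ R d b)) :
    H122R2.FdF.C4Free (ref R) := by
  intro p q r s h1 h2 h3 h4
  rcases id h1 with g1 | ⟨_, hs, _⟩
  swap
  · exact (ref_four h1 h2 h3 h4 hs).elim
  rcases id h2 with g2 | ⟨_, hs, _⟩
  swap
  · exact (ref_four h2 h3 h4 h1 hs).elim
  rcases id h3 with g3 | ⟨_, hs, _⟩
  swap
  · exact (ref_four h3 h4 h1 h2 hs).elim
  rcases id h4 with g4 | ⟨_, hs, _⟩
  swap
  · exact (ref_four h4 h1 h2 h3 hs).elim
  rcases hC _ _ _ _ g1 g2 g3 g4 with h | h | h | h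
  · exact Or.inl (Or.inl h)
  · exact Or.inr (Or.inl (Or.inl h))
  · exact Or.inr (Or.inr (Or.inl (Or.inl h)))
  · exact Or.inr (Or.inr (Or.inr (Or.inl h)))

open Classical in
theorem H_le {ι : Type} {R : ι → ι → Prop} (hO : ∀ a b, R a b → ¬ R b a) (a b c : ι) :
    H122R2.FdF.H R a b c ≤ if FT R a b c then 1 else 0 := by
  unfold H122R2.FdF.H H122R2.FdF.A H122R2.FdF.N FT Adj
  have h1 := hO a b
  have h2 := hO a c
  have h3 := hO b c
  by_cases r1 : R a b <;> by_cases r2 : R b a <;> by_cases r3 : R a c <;> by_cases r4 : R c a <;>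
    by_cases r5 : R b c <;> by_cases r6 : R c b <;> simp_all

theorem FT_ref {ι : Type} {R : ι → ι → Prop} (hO : ∀ a b, R a b → ¬ R b a) {a b c : ι}
    {i j k : Fin 3} (hn : ¬ (a = b ∧ b = c)) (h : FT (ref R) (a, i) (b, j) (c, k)) :
    FT R a b c := by
  have irr : ∀ a, ¬ R a a := fun a h => hO a a h h
  unfold FT Adj ref at *
  dsimp only at h
  by_cases h1 : a = b
  · subst h1
    have h2 : a ≠ c := fun h2 => hn ⟨rfl, h2⟩
    have h3 : c ≠ a := h2.symm
    simp only [irr, h2, h3, false_and, or_false, false_or, not_false_eq_true, true_and, and_self,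
      or_self] at h ⊢
    by_cases g1 : R a c
    · have g2 : ¬ ∀ b, ¬ R a b := fun h => h c g1
      have g3 := hO _ _ g1
      simp only [g1, g2, g3, false_and, and_false, or_false, false_or, not_true_eq_false,
        and_self, true_or] at h
    · by_cases g2 : R c a
      · simp [g2]
      · simp [g1, g2]
  · have h1' : b ≠ a := Ne.symm h1
    by_cases h2 : b = c
    · subst h2
      simp only [irr, h1, h1', false_and, or_false, false_or, not_false_eq_true, true_and,
        and_self, or_self] at h ⊢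
      by_cases g1 : R b a
      · have g2 : ¬ ∀ d, ¬ R b d := fun h => h a g1
        have g3 := hO _ _ g1
        simp only [g1, g2, g3, false_and, and_false, or_false, false_or, not_true_eq_false,
          and_self, or_true, true_and] at h
      · by_cases g2 : R a b
        · simp [g2]
        · simp [g1, g2]
    · have h2' : c ≠ b := Ne.symm h2
      by_cases h3 : a = c
      · subst h3
        simp only [irr, h1, h1', false_and, or_false, false_or, not_false_eq_true, true_and,
          and_self, or_self, and_true] at h ⊢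
        by_cases g1 : R a b
        · have g2 : ¬ ∀ d, ¬ R a d := fun h => h b g1
          have g3 := hO _ _ g1
          simp only [g1, g2, g3, false_and, and_false, or_false, false_or, not_true_eq_false,
            and_self, or_true, true_and, true_or] at h
        · by_cases g2 : R b a
          · simp [g2]
          · simp [g1, g2]
      · have h3' : c ≠ a := Ne.symm h3
        simp only [h1, h1', h2, h2', h3, h3', false_and, or_false] at h
        exact h

open Classical in
/-- the coefficients of a Fon-der-Flaass pattern -/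
noncomputable def kF {ι : Type} (R : ι → ι → Prop) (a b c : ι) : ℤ :=
  if a = b ∧ b = c then (if ∃ j, R a j then 5 else 0) else if FT R a b c then 5 else -4

/-- the cyclic orientation on three points -/
def cyc (i j : Fin 3) : Prop := j = i + 1

instance (i j : Fin 3) : Decidable (cyc i j) := inferInstanceAs (Decidable (j = i + 1))

instance (i j : Fin 3) : Decidable (Adj cyc i j) :=
  inferInstanceAs (Decidable (cyc i j ∨ cyc j i))

instance (i j k : Fin 3) : Decidable (FT cyc i j k) := by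
  unfold FT
  infer_instance

theorem cyc_count : ∑ i : Fin 3, ∑ j : Fin 3, ∑ k : Fin 3,
    (if FT cyc i j k then (1 : ℤ) else 0) = 12 := by
  decide +kernel

theorem FT_sink {ι : Type} {R : ι → ι → Prop} {a : ι} (hs : ∀ b, ¬ R a b) (i j k : Fin 3) :
    FT (ref R) (a, i) (a, j) (a, k) ↔ FT cyc i j k := by
  unfold FT Adj ref cyc
  simp only [hs, false_or, true_and, not_false_eq_true, implies_true]

open Classical in
/-- the sum over the copies -/
theorem copies_le {ι : Type} {R : ι → ι → Prop} (hO : ∀ a b, R a b → ¬ R b a) (a b c : ι) :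
    9 * ∑ i : Fin 3, ∑ j : Fin 3, ∑ k : Fin 3, H122R2.FdF.H (ref R) (a, i) (b, j) (c, k) ≤
      27 * ((kF R a b c : ℝ) + 4) := by
  have hO' : ∀ p q, ref R p q → ¬ ref R q p := ref_oriented hO
  have h1 : ∑ i : Fin 3, ∑ j : Fin 3, ∑ k : Fin 3, H122R2.FdF.H (ref R) (a, i) (b, j) (c, k) ≤
      ∑ i : Fin 3, ∑ j : Fin 3, ∑ k : Fin 3,
        (if FT (ref R) (a, i) (b, j) (c, k) then (1 : ℝ) else 0) :=
    sum_le_sum fun i _ => sum_le_sum fun j _ => sum_le_sum fun k _ => H_le hO' _ _ _
  have h27 : ∑ i : Fin 3, ∑ j : Fin 3, ∑ k : Fin 3, (1 : ℝ) = 27 := by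
    simp only [sum_const, card_univ, Fintype.card_fin, nsmul_eq_mul]
    norm_num
  have hle : ∑ i : Fin 3, ∑ j : Fin 3, ∑ k : Fin 3,
        (if FT (ref R) (a, i) (b, j) (c, k) then (1 : ℝ) else 0) ≤ 27 := by
    rw [← h27]
    refine sum_le_sum fun i _ => sum_le_sum fun j _ => sum_le_sum fun k _ => ?_
    split_ifs <;> norm_num
  unfold kF
  by_cases h : a = b ∧ b = c
  · obtain ⟨rfl, rfl⟩ := h
    rw [if_pos ⟨rfl, rfl⟩]
    by_cases h2 : ∃ j, R a j
    · rw [if_pos h2]
      push_cast
      linarith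
    · rw [if_neg h2]
      have hs : ∀ b, ¬ R a b := fun b hb => h2 ⟨b, hb⟩
      have h3 : ∑ i : Fin 3, ∑ j : Fin 3, ∑ k : Fin 3,
        (if FT (ref R) (a, i) (a, j) (a, k) then (1 : ℝ) else 0) = 12 := by
        have h4 : (((∑ i : Fin 3, ∑ j : Fin 3, ∑ k : Fin 3,
          (if FT cyc i j k then (1 : ℤ) else 0) : ℤ)) : ℝ) = 12 := by
          rw [cyc_count]; norm_num
        rw [← h4]
        push_cast
        refine sum_congr rfl fun i _ => sum_congr rfl fun j _ => sum_congr rfl fun k _ => ?_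
        by_cases h5 : FT cyc i j k
        · rw [if_pos h5, if_pos ((FT_sink hs i j k).2 h5)]
        · rw [if_neg h5, if_neg (fun h6 => h5 ((FT_sink hs i j k).1 h6))]
      rw [h3] at h1
      push_cast
      linarith
  · rw [if_neg h]
    by_cases h2 : FT R a b c
    · rw [if_pos h2]
      push_cast
      linarith
    · rw [if_neg h2]
      have h3 : ∑ i : Fin 3, ∑ j : Fin 3, ∑ k : Fin 3,
        (if FT (ref R) (a, i) (b, j) (c, k) then (1 : ℝ) else 0) = 0 := by
        refine sum_eq_zero fun i _ => sum_eq_zero fun j _ => sum_eq_zero fun k _ => ?_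
        rw [if_neg]
        intro h4
        exact h2 (FT_ref hO h h4)
      rw [h3] at h1
      push_cast
      linarith

/-- from the weighted theorem to the form -/
theorem kF_nonneg {m : ℕ} {R : Fin m → Fin m → Prop} (hO : ∀ a b, R a b → ¬ R b a)
    (hmain : ∀ w : Fin m × Fin 3 → ℝ, (∀ v, 0 ≤ w v) → ∑ v, w v = 1 →
      4 / 9 ≤ H122R2.FdF.T (ref R) w)
    (x : Fin m → ℕ) : 0 ≤ ∑ a, ∑ b, ∑ c, kF R a b c * (x a : ℤ) * (x b : ℤ) * (x c : ℤ) := by
  classical
  have key : (0 : ℝ) ≤ ∑ a, ∑ b, ∑ c, (kF R a b c : ℝ) * (x a : ℝ) * (x b : ℝ) * (x c : ℝ) := by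
    set S : ℝ := ∑ a, (x a : ℝ) with hS
    have hS0 : 0 ≤ S := sum_nonneg fun a _ => Nat.cast_nonneg _
    rcases hS0.lt_or_eq with hpos | hz
    · set w : Fin m × Fin 3 → ℝ := fun v => (x v.1 : ℝ) / (3 * S) with hw
      have hw0 : ∀ v, 0 ≤ w v := fun v => by
        rw [hw]
        positivity
      have hw1 : ∑ v, w v = 1 := by
        rw [hw, Fintype.sum_prod_type]
        simp only [sum_const, card_univ, Fintype.card_fin, nsmul_eq_mul]
        rw [← mul_sum, ← sum_div, ← hS]
        push_cast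
        field_simp
      have h1 := hmain w hw0 hw1
      have h2 : H122R2.FdF.T (ref R) w = (1 / (27 * S ^ 3)) * ∑ a, ∑ b, ∑ c,
          (x a : ℝ) * (x b : ℝ) * (x c : ℝ) *
            ∑ i : Fin 3, ∑ j : Fin 3, ∑ k : Fin 3,
              H122R2.FdF.H (ref R) (a, i) (b, j) (c, k) := by
        unfold H122R2.FdF.T
        rw [mul_sum, Fintype.sum_prod_type]
        refine sum_congr rfl fun a _ => ?_
        rw [mul_sum]
        have e1 : ∀ i : Fin 3, ∑ q : Fin m × Fin 3, ∑ r : Fin m × Fin 3,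
            w (a, i) * w q * w r * H122R2.FdF.H (ref R) (a, i) q r =
            ∑ b, ∑ j : Fin 3, ∑ c, ∑ k : Fin 3,
              w (a, i) * w (b, j) * w (c, k) * H122R2.FdF.H (ref R) (a, i) (b, j) (c, k) := by
          intro i
          rw [Fintype.sum_prod_type]
          refine sum_congr rfl fun b _ => sum_congr rfl fun j _ => ?_
          rw [Fintype.sum_prod_type]
        rw [sum_congr rfl fun i _ => e1 i, sum_comm]
        refine sum_congr rfl fun b _ => ?_
        rw [mul_sum]
        have e2 : ∑ i : Fin 3, ∑ j : Fin 3, ∑ c, ∑ k : Fin 3,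
              w (a, i) * w (b, j) * w (c, k) * H122R2.FdF.H (ref R) (a, i) (b, j) (c, k) =
            ∑ c, ∑ i : Fin 3, ∑ j : Fin 3, ∑ k : Fin 3,
              w (a, i) * w (b, j) * w (c, k) * H122R2.FdF.H (ref R) (a, i) (b, j) (c, k) := by
          rw [sum_congr rfl fun i _ => sum_comm, sum_comm]
        rw [e2]
        refine sum_congr rfl fun c _ => ?_
        rw [mul_sum, mul_sum]
        refine sum_congr rfl fun i _ => ?_
        rw [mul_sum, mul_sum]
        refine sum_congr rfl fun j _ => ?_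
        rw [mul_sum, mul_sum]
        refine sum_congr rfl fun k _ => ?_
        rw [hw]
        field_simp
        ring
      rw [h2] at h1
      have h3 : ∑ a, ∑ b, ∑ c, (x a : ℝ) * (x b : ℝ) * (x c : ℝ) = S ^ 3 := by
        have e3 : ∀ a b : Fin m, ∑ c, (x a : ℝ) * (x b : ℝ) * (x c : ℝ) =
            (x a : ℝ) * (x b : ℝ) * S := fun a b => by rw [← mul_sum]
        have e4 : ∀ a : Fin m, ∑ b, (x a : ℝ) * (x b : ℝ) * S = (x a : ℝ) * S * S := fun a => by
          rw [← sum_mul, ← mul_sum]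
        simp only [e3, e4]
        rw [← sum_mul, ← sum_mul]
        ring
      have h4 : 9 * ∑ a, ∑ b, ∑ c, (x a : ℝ) * (x b : ℝ) * (x c : ℝ) *
            ∑ i : Fin 3, ∑ j : Fin 3, ∑ k : Fin 3,
              H122R2.FdF.H (ref R) (a, i) (b, j) (c, k) ≤
          27 * (∑ a, ∑ b, ∑ c, (kF R a b c : ℝ) * (x a : ℝ) * (x b : ℝ) * (x c : ℝ)) +
            108 * S ^ 3 := by
        rw [← h3, mul_sum, mul_sum, mul_sum, ← sum_add_distrib]
        refine sum_le_sum fun a _ => ?_
        rw [mul_sum, mul_sum, mul_sum, ← sum_add_distrib]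
        refine sum_le_sum fun b _ => ?_
        rw [mul_sum, mul_sum, mul_sum, ← sum_add_distrib]
        refine sum_le_sum fun c _ => ?_
        have h5 := copies_le hO a b c
        have h6 : (0 : ℝ) ≤ (x a : ℝ) * (x b : ℝ) * (x c : ℝ) := by positivity
        nlinarith [mul_le_mul_of_nonneg_left h5 h6]
      have h7 : 0 < S ^ 3 := by positivity
      rw [one_div, inv_mul_eq_div, le_div_iff₀ (by positivity)] at h1
      linarith
    · have h1 : ∀ a, (x a : ℝ) = 0 := by
        intro a
        have h2 := (sum_eq_zero_iff_of_nonneg (fun a _ => Nat.cast_nonneg (x a))).1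
          (hS.symm.trans hz.symm) a (mem_univ a)
        exact h2
      have : ∑ a, ∑ b, ∑ c, (kF R a b c : ℝ) * (x a : ℝ) * (x b : ℝ) * (x c : ℝ) = 0 := by
        refine sum_eq_zero fun a _ => sum_eq_zero fun b _ => sum_eq_zero fun c _ => ?_
        rw [h1 a]; ring
      rw [this]
  exact_mod_cast key

end Pool.Agent.V641.TS
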