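import Pool.Agent.V641.TS.Cv

/-!
From the numerical check to digraphs with a set of triples on five vertices.
-/

set_option autoImplicit false

namespace Pool.Agent.V641.TS

open Finset

/-- the pattern `(D, T)` has the type `a, b, c` as an edge: for `a ≠ b` the arc `D a b` stands for
the triples with two vertices in the class `a` and one in the class `b` -/
def Edge (D : Fin 5 → Fin 5 → Prop) (T : Fin 5 → Fin 5 → Fin 5 → Prop) (a b c : Fin 5) : Prop :=
  (a = b ∧ b ≠ c ∧ D a c) ∨ (a = c ∧ a ≠ b ∧ D a b) ∨ (b = c ∧ a ≠ b ∧ D b a) ∨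
    (a ≠ b ∧ a ≠ c ∧ b ≠ c ∧ T a b c)

open Classical in
/-- the coefficients of the form of a pattern -/
noncomputable def co (D : Fin 5 → Fin 5 → Prop) (T : Fin 5 → Fin 5 → Fin 5 → Prop)
    (a b c : Fin 5) : ℤ :=
  if a = b ∧ b = c then (if ∃ j, D a j then 5 else 0) else if Edge D T a b c then -4 else 5

theorem snk_of {A a : ℕ} (h : ∀ j < 5, arc A a j = false) : snk A a = true := by
  unfold snk
  have e : Nat.beq (Nat.land (Nat.shiftRight A (Nat.mul 5 a)) 31) 0 =
    Nat.beq ((A >>> (5 * a)) &&& 31) 0 := rfl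
  rw [e]
  have h1 : (A >>> (5 * a)) &&& 31 = 0 := by
    apply Nat.eq_of_testBit_eq
    intro i
    rw [Nat.testBit_and, Nat.zero_testBit, Nat.testBit_shiftRight]
    by_cases hi : i < 5
    · have h2 := h i hi
      unfold arc at h2
      rw [bit_eq] at h2
      have h3 : A.testBit (5 * a + i) = false := h2
      rw [h3]
      rfl
    · have h3 : Nat.testBit 31 i = false := by
        apply Nat.testBit_lt_two_pow
        calc 31 < 2 ^ 5 := by norm_num
          _ ≤ 2 ^ i := Nat.pow_le_pow_right (by norm_num) (by omega)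
      rw [h3, Bool.and_false]
  rw [h1]
  rfl

theorem beq_true' {k n : ℕ} (h : k = n) : Nat.beq k n = true := by
  subst h; exact Nat.beq_refl k

theorem co_ge {A E : ℕ} {D : Fin 5 → Fin 5 → Prop} {T : Fin 5 → Fin 5 → Fin 5 → Prop}
    (hD : ∀ i j, D i j ↔ arc A i j = true)
    (hT : ∀ a b c : Fin 5, a ≠ b → a ≠ c → b ≠ c → T a b c → E.testBit (tx a b c) = true)
    (a b c : Fin 5) : cf A E a b c ≤ co D T a b c := by
  unfold co cf cP cQ
  by_cases h : a = b ∧ b = c
  · obtain ⟨h1, h2⟩ := h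
    subst h1; subst h2
    rw [if_pos ⟨rfl, rfl⟩]
    have e : edg A E a a a = false := by
      unfold edg
      rw [beq_true' rfl]
      rfl
    rw [e, beq_true' rfl]
    by_cases h3 : ∃ j, D a j
    · rw [if_pos h3]
      cases snk A a <;> simp
    · rw [if_neg h3, snk_of]
      · simp
      · intro j hj
        rw [Bool.eq_false_iff]
        intro h4
        exact h3 ⟨⟨j, hj⟩, (hD a ⟨j, hj⟩).2 h4⟩
  · rw [if_neg h]
    have h5 : (Nat.beq (a : ℕ) b && (Nat.beq (b : ℕ) c && snk A a)) = false := by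
      rw [Bool.eq_false_iff]
      intro h6
      rw [Bool.and_eq_true, Bool.and_eq_true] at h6
      exact h ⟨Fin.ext (Nat.eq_of_beq_eq_true h6.1), Fin.ext (Nat.eq_of_beq_eq_true h6.2.1)⟩
    rw [h5]
    by_cases h7 : Edge D T a b c
    · rw [if_pos h7]
      have h8 : edg A E a b c = true := by
        unfold edg
        rcases h7 with ⟨h1, h2, h3⟩ | ⟨h1, h2, h3⟩ | ⟨h1, h2, h3⟩ | ⟨h1, h2, h3, h4⟩
        · subst h1
          rw [beq_true' rfl, beq_false' (fun h => h2 (Fin.ext h))]
          exact (hD a c).1 h3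
        · subst h1
          rw [beq_false' (fun h => h2 (Fin.ext h)), beq_true' rfl]
          exact (hD a b).1 h3
        · subst h1
          rw [beq_false' (fun h => h2 (Fin.ext h)), beq_true' rfl]
          exact (hD b a).1 h3
        · rw [beq_false' (fun h => h1 (Fin.ext h)), beq_false' (fun h => h2 (Fin.ext h)),
            beq_false' (fun h => h3 (Fin.ext h)), cond_false, cond_false, cond_false, bit_eq]
          exact hT a b c h1 h2 h3 h4
      rw [h8]
      norm_num
    · rw [if_neg h7]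
      cases edg A E a b c <;> norm_num

/-- the form of a pattern -/
noncomputable def form (D : Fin 5 → Fin 5 → Prop) (T : Fin 5 → Fin 5 → Fin 5 → Prop)
    (x : Fin 5 → ℤ) : ℤ := ∑ a, ∑ b, ∑ c, co D T a b c * x a * x b * x c

theorem form_nonneg_of {A E : ℕ} {D : Fin 5 → Fin 5 → Prop} {T : Fin 5 → Fin 5 → Fin 5 → Prop}
    (hD : ∀ i j, D i j ↔ arc A i j = true)
    (hT : ∀ a b c : Fin 5, a ≠ b → a ≠ c → b ≠ c → T a b c → E.testBit (tx a b c) = true)
    (hG : ∀ x : ℕ → ℤ, (∀ a, 0 ≤ x a) → 0 ≤ GG A E x)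
    (x : Fin 5 → ℤ) (hx : ∀ a, 0 ≤ x a) : 0 ≤ form D T x := by
  have h1 := hG (fun n => if h : n < 5 then x ⟨n, h⟩ else 0) (by
    intro a
    by_cases h : a < 5
    · simp only [h, dif_pos]
      exact hx _
    · simp only [h, dif_neg, not_false_eq_true, le_refl])
  unfold GG at h1
  refine le_trans h1 ?_
  unfold form
  rw [Finset.sum_range]
  refine sum_le_sum fun a _ => ?_
  rw [Finset.sum_range]
  refine sum_le_sum fun b _ => ?_
  rw [Finset.sum_range]
  refine sum_le_sum fun c _ => ?_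
  simp only [Fin.is_lt, dif_pos]
  have h2 := co_ge hD hT a b c
  have h3 := hx a
  have h4 := hx b
  have h5 := hx c
  gcongr

/-- the triple number `m` -/
def Tp (T : Fin 5 → Fin 5 → Fin 5 → Prop) (m : ℕ) : Prop :=
  match m with
  | 0 => T 0 1 2
  | 1 => T 0 1 3
  | 2 => T 0 2 3
  | 3 => T 1 2 3
  | 4 => T 0 1 4
  | 5 => T 0 2 4
  | 6 => T 1 2 4
  | 7 => T 0 3 4
  | 8 => T 1 3 4
  | 9 => T 2 3 4
  | _ => False

theorem Tp_tx {T : Fin 5 → Fin 5 → Fin 5 → Prop} (h1 : ∀ a b c, T a b c → T b a c)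
    (h2 : ∀ a b c, T a b c → T a c b) : ∀ a b c : Fin 5, a ≠ b → a ≠ c → b ≠ c → T a b c →
    Tp T (tx a b c) := by
  have h3 : ∀ a b c, T a b c → T b c a := fun a b c h => h2 _ _ _ (h1 _ _ _ h)
  have h4 : ∀ a b c, T a b c → T c a b := fun a b c h => h1 _ _ _ (h2 _ _ _ h)
  have h5 : ∀ a b c, T a b c → T c b a := fun a b c h => h1 _ _ _ (h3 _ _ _ h)
  intro a b c
  fin_cases a <;> fin_cases b <;> fin_cases c <;> intro n1 n2 n3 h <;>
    first
      | exact absurd rfl n1
      | exact absurd rfl n2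
      | exact absurd rfl n3
      | exact h
      | exact h1 _ _ _ h
      | exact h2 _ _ _ h
      | exact h3 _ _ _ h
      | exact h4 _ _ _ h
      | exact h5 _ _ _ h

theorem cfr_of {A : ℕ} {D : Fin 5 → Fin 5 → Prop} {T : Fin 5 → Fin 5 → Fin 5 → Prop}
    (hD : ∀ i j, D i j ↔ arc A i j = true) (h1 : ∀ a b c, T a b c → T b a c)
    (h2 : ∀ a b c, T a b c → T a c b)
    (h3 : ∀ i j l, j ≠ l → D i j → D i l → ¬ T i j l) (i j l : Fin 5) (hij : i ≠ j) (hil : i ≠ l)
    (hjl : j ≠ l) (h : T i j l) : cfr A i j l = true := by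
  unfold cfr
  have e1 : (arc A i j && arc A i l) = false := by
    rw [Bool.eq_false_iff]
    intro h4
    rw [Bool.and_eq_true] at h4
    exact h3 i j l hjl ((hD _ _).2 h4.1) ((hD _ _).2 h4.2) h
  have e2 : (arc A j i && arc A j l) = false := by
    rw [Bool.eq_false_iff]
    intro h4
    rw [Bool.and_eq_true] at h4
    exact h3 j i l hil ((hD _ _).2 h4.1) ((hD _ _).2 h4.2) (h1 _ _ _ h)
  have e3 : (arc A l i && arc A l j) = false := by
    rw [Bool.eq_false_iff]
    intro h4
    rw [Bool.and_eq_true] at h4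
    exact h3 l i j hij ((hD _ _).2 h4.1) ((hD _ _).2 h4.2) (h1 _ _ _ (h2 _ _ _ h))
  rw [e1, e2, e3]
  rfl

theorem form_nonneg_of_okR {r : ℕ × List (ℕ × ℕ)} (hr : okR r = true)
    {D : Fin 5 → Fin 5 → Prop} {T : Fin 5 → Fin 5 → Fin 5 → Prop}
    (hD : ∀ i j, D i j ↔ arc r.1 i j = true)
    (h1 : ∀ a b c, T a b c → T b a c) (h2 : ∀ a b c, T a b c → T a c b)
    (h3 : ∀ i j l, j ≠ l → D i j → D i l → ¬ T i j l)
    (h4 : ∀ i j k l, i ≠ j → i ≠ k → i ≠ l → j ≠ k → j ≠ l → k ≠ l →
      ¬ (T i j k ∧ T i j l ∧ T i k l ∧ T j k l))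
    (x : Fin 5 → ℤ) (hx : ∀ a, 0 ≤ x a) : 0 ≤ form D T x := by
  obtain ⟨E, hE, hG⟩ := okR_sound hr (Tp T) (by
      intro m hm
      by_contra hc
      have : ∀ m, 10 ≤ m → ¬ Tp T m := by
        intro m hm
        obtain ⟨k, rfl⟩ := Nat.exists_eq_add_of_le hm
        rw [Nat.add_comm]
        exact fun h => h
      exact this m (by omega) hm)
    (by
      intro m hm
      have hc := fun i j l h5 h6 h7 h8 => cfr_of (T := T) hD h1 h2 h3 i j l h5 h6 h7 h8
      match m, hm with
      | 0, hm => exact hc 0 1 2 (by decide) (by decide) (by decide) hm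
      | 1, hm => exact hc 0 1 3 (by decide) (by decide) (by decide) hm
      | 2, hm => exact hc 0 2 3 (by decide) (by decide) (by decide) hm
      | 3, hm => exact hc 1 2 3 (by decide) (by decide) (by decide) hm
      | 4, hm => exact hc 0 1 4 (by decide) (by decide) (by decide) hm
      | 5, hm => exact hc 0 2 4 (by decide) (by decide) (by decide) hm
      | 6, hm => exact hc 1 2 4 (by decide) (by decide) (by decide) hm
      | 7, hm => exact hc 0 3 4 (by decide) (by decide) (by decide) hm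
      | 8, hm => exact hc 1 3 4 (by decide) (by decide) (by decide) hm
      | 9, hm => exact hc 2 3 4 (by decide) (by decide) (by decide) hm
      | (n + 10), hm => exact absurd hm (fun h => h))
    (by
      intro q hq
      simp only [quads, List.mem_cons, List.not_mem_nil, or_false] at hq
      rcases hq with rfl | rfl | rfl | rfl | rfl
      · exact h4 0 1 2 3 (by decide) (by decide) (by decide) (by decide) (by decide) (by decide)
      · exact h4 0 1 2 4 (by decide) (by decide) (by decide) (by decide) (by decide) (by decide)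
      · exact h4 0 1 3 4 (by decide) (by decide) (by decide) (by decide) (by decide) (by decide)
      · exact h4 0 2 3 4 (by decide) (by decide) (by decide) (by decide) (by decide) (by decide)
      · exact h4 1 2 3 4 (by decide) (by decide) (by decide) (by decide) (by decide) (by decide))
  exact form_nonneg_of hD (fun a b c n1 n2 n3 h => hE _ (Tp_tx h1 h2 a b c n1 n2 n3 h)) hG x hx

end Pool.Agent.V641.TS
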