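import Pool.Agent.V641.TS.Key1
import Pool.Agent.V641.TS.Cov

/-!
The cubic form of every `K_4^3`-free pattern on five classes is nonnegative.
-/

set_option autoImplicit false

namespace Pool.Agent.V641.TS

open Finset

theorem co_equiv (σ : Fin 5 ≃ Fin 5) (D : Fin 5 → Fin 5 → Prop)
    (T : Fin 5 → Fin 5 → Fin 5 → Prop) (a b c : Fin 5) :
    co (fun i j => D (σ.symm i) (σ.symm j)) (fun i j l => T (σ.symm i) (σ.symm j) (σ.symm l))
      (σ a) (σ b) (σ c) = co D T a b c := by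
  have e : (∃ j, D (σ.symm (σ a)) (σ.symm j)) ↔ ∃ j, D a j := by
    rw [Equiv.symm_apply_apply]
    constructor
    · rintro ⟨j, hj⟩; exact ⟨_, hj⟩
    · rintro ⟨j, hj⟩; exact ⟨σ j, by rwa [Equiv.symm_apply_apply]⟩
  have e2 : Edge (fun i j => D (σ.symm i) (σ.symm j))
      (fun i j l => T (σ.symm i) (σ.symm j) (σ.symm l)) (σ a) (σ b) (σ c) ↔ Edge D T a b c := by
    unfold Edge
    simp only [Equiv.symm_apply_apply, EmbeddingLike.apply_eq_iff_eq, ne_eq]
  have e3 : (σ a = σ b ∧ σ b = σ c) ↔ (a = b ∧ b = c) := by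
    simp only [EmbeddingLike.apply_eq_iff_eq]
  unfold co
  by_cases h1 : a = b ∧ b = c
  · rw [if_pos h1, if_pos (e3.2 h1)]
    by_cases h2 : ∃ j, D a j
    · rw [if_pos h2, if_pos (e.2 h2)]
    · rw [if_neg h2, if_neg (fun h => h2 (e.1 h))]
  · rw [if_neg h1, if_neg (fun h => h1 (e3.1 h))]
    by_cases h2 : Edge D T a b c
    · rw [if_pos h2, if_pos (e2.2 h2)]
    · rw [if_neg h2, if_neg (fun h => h2 (e2.1 h))]

theorem form_equiv (σ : Fin 5 ≃ Fin 5) (D : Fin 5 → Fin 5 → Prop)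
    (T : Fin 5 → Fin 5 → Fin 5 → Prop) (x : Fin 5 → ℤ) :
    form (fun i j => D (σ.symm i) (σ.symm j)) (fun i j l => T (σ.symm i) (σ.symm j) (σ.symm l))
      (fun a => x (σ.symm a)) = form D T x := by
  unfold form
  rw [← Equiv.sum_comp σ]
  refine sum_congr rfl fun a _ => ?_
  rw [← Equiv.sum_comp σ]
  refine sum_congr rfl fun b _ => ?_
  rw [← Equiv.sum_comp σ]
  refine sum_congr rfl fun c _ => ?_
  rw [co_equiv]
  simp only [Equiv.symm_apply_apply]

theorem qd_arc {A a b : ℕ} (h : qd A a b < 3) :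
    (qd A a b = 1 ↔ arc A a b = true) ∧ (qd A a b = 2 ↔ arc A b a = true) := by
  unfold qd at *
  cases h1 : arc A a b <;> cases h2 : arc A b a <;> rw [h1, h2] at h <;> simp at h ⊢

/-- **the form of every `K_4^3`-free pattern on five classes is nonnegative** -/
theorem form_nonneg (D : Fin 5 → Fin 5 → Prop) (T : Fin 5 → Fin 5 → Fin 5 → Prop)
    (h0 : ∀ i j, D i j → ¬ D j i)
    (h1 : ∀ a b c, T a b c → T b a c) (h2 : ∀ a b c, T a b c → T a c b)
    (h3 : ∀ i j l, j ≠ l → D i j → D i l → ¬ T i j l)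
    (h4 : ∀ i j k l, i ≠ j → i ≠ k → i ≠ l → j ≠ k → j ≠ l → k ≠ l →
      ¬ (T i j k ∧ T i j l ∧ T i k l ∧ T j k l))
    (x : Fin 5 → ℤ) (hx : ∀ a, 0 ≤ x a) : 0 ≤ form D T x := by
  classical
  set fi : ℕ → Fin 5 := fun n => ⟨n % 5, Nat.mod_lt _ (by norm_num)⟩ with hfi
  have hfi' : ∀ i : Fin 5, fi i = i := fun i => Fin.ext (Nat.mod_eq_of_lt i.2)
  set e : ℕ → ℕ → ℕ := fun i j => if D (fi i) (fi j) then 1 else if D (fi j) (fi i) then 2 else 0
    with he
  have he3 : ∀ a b, e a b < 3 := by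
    intro a b
    rw [he]
    dsimp only
    split_ifs <;> norm_num
  obtain ⟨r, hr, h⟩ := covered _ (dl_lt he3)
  obtain ⟨hq, t, ht, hnd, ht5, hp⟩ := exists_perm he3 h
  have hlt : ∀ i < 5, t.getD i 0 < 5 := by
    intro i hi
    rw [List.getD_eq_getElem _ _ (by omega)]
    exact ht5 _ (List.getElem_mem _)
  set τ : Fin 5 → Fin 5 := fun i => ⟨t.getD i 0, hlt i i.2⟩ with hτ
  have hinj : Function.Injective τ := by
    intro i j hij
    have h5 : t.getD i 0 = t.getD j 0 := congrArg Fin.val hij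
    rw [List.getD_eq_getElem _ _ (by omega), List.getD_eq_getElem _ _ (by omega)] at h5
    exact Fin.ext ((hnd.getElem_inj_iff).1 h5)
  have hbij : Function.Bijective τ := Finite.injective_iff_bijective.1 hinj
  set σ : Fin 5 ≃ Fin 5 := Equiv.ofBijective τ hbij with hσ
  have hσv : ∀ i, ((σ i : Fin 5) : ℕ) = t.getD i 0 := fun i => rfl
  have hlt1 : ∀ i j : Fin 5, i < j → (D i j ↔ arc r.1 (σ i) (σ j) = true) ∧
      (D j i ↔ arc r.1 (σ j) (σ i) = true) := by
    intro i j hij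
    have h5 := hp i j hij j.2
    have h6 := qd_arc (hq _ (hlt i i.2) _ (hlt j j.2))
    rw [← h5] at h6
    rw [hσv, hσv, ← h6.1, ← h6.2, he]
    dsimp only
    rw [hfi', hfi']
    by_cases h7 : D i j
    · have h8 := h0 _ _ h7
      rw [if_pos h7]
      exact ⟨by simp [h7], by simp [h8]⟩
    · rw [if_neg h7]
      by_cases h8 : D j i
      · rw [if_pos h8]
        exact ⟨by simp [h7], by simp [h8]⟩
      · rw [if_neg h8]
        exact ⟨by simp [h7], by simp [h8]⟩
  have hDσ : ∀ i j : Fin 5, D i j ↔ arc r.1 (σ i) (σ j) = true := by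
    intro i j
    rcases lt_trichotomy i j with h5 | h5 | h5
    · exact (hlt1 i j h5).1
    · subst h5
      have h6 : ¬ D i i := fun h7 => h0 _ _ h7 h7
      have h7 := hq _ (hlt i i.2) _ (hlt i i.2)
      have h8 : arc r.1 (t.getD i 0) (t.getD i 0) = false := by
        unfold qd at h7
        cases h9 : arc r.1 (t.getD i 0) (t.getD i 0) with
        | false => rfl
        | true => rw [h9] at h7; simp at h7
      rw [hσv, h8]
      simp [h6]
    · exact (hlt1 j i h5).2
  rw [← form_equiv σ]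
  apply form_nonneg_of_okR (okAll r hr)
  · intro i j
    have h5 := hDσ (σ.symm i) (σ.symm j)
    rw [Equiv.apply_symm_apply, Equiv.apply_symm_apply] at h5
    exact h5
  · intro a b c; exact h1 _ _ _
  · intro a b c; exact h2 _ _ _
  · intro i j l hjl
    exact h3 _ _ _ (fun h5 => hjl (σ.symm.injective h5))
  · intro i j k l n1 n2 n3 n4 n5 n6
    exact h4 _ _ _ _ (fun h5 => n1 (σ.symm.injective h5)) (fun h5 => n2 (σ.symm.injective h5))
      (fun h5 => n3 (σ.symm.injective h5)) (fun h5 => n4 (σ.symm.injective h5))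
      (fun h5 => n5 (σ.symm.injective h5)) (fun h5 => n6 (σ.symm.injective h5))
  · intro a; exact hx _

end Pool.Agent.V641.TS
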