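import Mathlib

/-!
Cubic forms in five nonnegative variables, packed into one natural number (digits in base `2 ^ 48`):
nonnegativity by successive comparison of variables; a checker which reduces well in the kernel,
and its soundness.
-/

set_option autoImplicit false

namespace Pool.Agent.V641.TS

/-- the digit number `k` in base `2 ^ 48` -/
def dg (N k : ℕ) : ℕ := N / 2 ^ (48 * k) % 2 ^ 48

theorem dg_lt (N k : ℕ) : dg N k < 2 ^ 48 := Nat.mod_lt _ (by positivity)

theorem dg_zero (k : ℕ) : dg 0 k = 0 := by simp [dg]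

theorem dg_shr (N s k : ℕ) : dg (N >>> (48 * s)) k = dg N (k + s) := by
  unfold dg
  rw [Nat.shiftRight_eq_div_pow, Nat.div_div_eq_div_mul, ← pow_add]
  congr 3
  ring

theorem dg_shl (N s k : ℕ) : dg (N <<< (48 * s)) k = if k < s then 0 else dg N (k - s) := by
  unfold dg
  rw [Nat.shiftLeft_eq]
  split_ifs with h
  · obtain ⟨t, rfl⟩ : ∃ t, s = k + 1 + t := ⟨s - (k + 1), by omega⟩
    have e : N * 2 ^ (48 * (k + 1 + t)) = 2 ^ (48 * k) * (2 ^ 48 * (N * 2 ^ (48 * t))) := by
      rw [show 48 * (k + 1 + t) = 48 * k + 48 + 48 * t by ring, pow_add, pow_add]; ring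
    rw [e, Nat.mul_div_cancel_left _ (by positivity), Nat.mul_mod_right]
  · obtain ⟨t, rfl⟩ : ∃ t, k = s + t := ⟨k - s, by omega⟩
    have e : 2 ^ (48 * (s + t)) = 2 ^ (48 * s) * 2 ^ (48 * t) := by
      rw [show 48 * (s + t) = 48 * s + 48 * t by ring, pow_add]
    rw [e, ← Nat.div_div_eq_div_mul, Nat.mul_div_cancel _ (by positivity)]
    congr 3
    omega

theorem dg_land (N M k : ℕ) : dg (N &&& M) k = dg N k &&& dg M k := by
  apply Nat.eq_of_testBit_eq
  intro i
  simp only [dg, Nat.testBit_mod_two_pow, Nat.testBit_div_two_pow, Nat.testBit_and]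
  cases decide (i < 48) <;> simp

theorem mod_succ_eq (N k : ℕ) :
    N % 2 ^ (48 * (k + 1)) = N % 2 ^ (48 * k) + 2 ^ (48 * k) * dg N k := by
  unfold dg
  rw [show 48 * (k + 1) = 48 * k + 48 by ring, pow_add, Nat.mod_mul]

theorem mod_add_lt {X Y : ℕ} (h : ∀ k, dg X k + dg Y k < 2 ^ 48) (k : ℕ) :
    X % 2 ^ (48 * k) + Y % 2 ^ (48 * k) < 2 ^ (48 * k) := by
  induction k with
  | zero => simp [Nat.mod_one]
  | succ k ih =>
    rw [mod_succ_eq, mod_succ_eq, show 48 * (k + 1) = 48 * k + 48 by ring, pow_add]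
    have h1 : 2 ^ (48 * k) * (dg X k + dg Y k + 1) ≤ 2 ^ (48 * k) * 2 ^ 48 :=
      Nat.mul_le_mul_left _ (h k)
    have h2 : 2 ^ (48 * k) * (dg X k + dg Y k + 1) =
      2 ^ (48 * k) * dg X k + 2 ^ (48 * k) * dg Y k + 2 ^ (48 * k) := by ring
    omega

theorem dg_add {X Y : ℕ} (h : ∀ k, dg X k + dg Y k < 2 ^ 48) (k : ℕ) :
    dg (X + Y) k = dg X k + dg Y k := by
  have h1 := mod_add_lt h k
  have h2 : (X + Y) / 2 ^ (48 * k) = X / 2 ^ (48 * k) + Y / 2 ^ (48 * k) := by
    rw [Nat.add_div (by positivity), if_neg (by omega), add_zero]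
  have h3 : dg (X + Y) k = (dg X k + dg Y k) % 2 ^ 48 := by
    unfold dg
    rw [h2, Nat.add_mod]
  rw [h3, Nat.mod_eq_of_lt (h k)]

/-- the masks of the three slots (the digits of index `k < 250` with `k / S % 5 = 0`) -/
def mA : ℕ := (2 ^ (48 * 25) - 1) * (1 + 2 ^ (48 * 125))
def mB : ℕ := (2 ^ (48 * 5) - 1) * ((2 ^ (48 * 250) - 1) / (2 ^ (48 * 25) - 1))
def mC : ℕ := (2 ^ 48 - 1) * ((2 ^ (48 * 250) - 1) / (2 ^ (48 * 5) - 1))

/-- all digits are `2 ^ 48 - 1` or `0`, according to the slot -/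
def MaskOK (M S : ℕ) : Prop := ∀ k, dg M k = if k < 250 ∧ k / S % 5 = 0 then 2 ^ 48 - 1 else 0

def mchk (M S : ℕ) : ℕ → Bool
  | 0 => true
  | k + 1 => Nat.beq (dg M k) (if k / S % 5 = 0 then 2 ^ 48 - 1 else 0) && mchk M S k

theorem mchk_ok {M S : ℕ} : ∀ {n : ℕ}, mchk M S n = true → ∀ k < n,
    dg M k = if k / S % 5 = 0 then 2 ^ 48 - 1 else 0 := by
  intro n
  induction n with
  | zero => intro _ k hk; omega
  | succ n ih =>
    intro h k hk
    rw [mchk, Bool.and_eq_true] at h
    rcases Nat.lt_succ_iff_lt_or_eq.1 hk with h1 | h1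
    · exact ih h.2 k h1
    · subst h1
      exact Nat.eq_of_beq_eq_true h.1

theorem maskOK_of {M S n : ℕ} (hn : n = 250) (h : mchk M S n = true) (h' : M < 2 ^ (48 * n)) :
    MaskOK M S := by
  intro k
  rw [← hn]
  by_cases hk : k < n
  · rw [mchk_ok h k hk]
    by_cases h2 : k / S % 5 = 0
    · rw [if_pos h2, if_pos ⟨hk, h2⟩]
    · rw [if_neg h2, if_neg (fun h3 => h2 h3.2)]
  · rw [if_neg (fun h3 => hk h3.1)]
    unfold dg
    rw [Nat.div_eq_of_lt, Nat.zero_mod]
    exact lt_of_lt_of_le h' (Nat.pow_le_pow_right (by norm_num) (by omega))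

theorem mA_ok : MaskOK mA 25 := maskOK_of (n := 250) rfl (by decide +kernel) (by decide +kernel)
theorem mB_ok : MaskOK mB 5 := maskOK_of (n := 250) rfl (by decide +kernel) (by decide +kernel)
theorem mC_ok : MaskOK mC 1 := maskOK_of (n := 250) rfl (by decide +kernel) (by decide +kernel)

/-- add the digits with slot `i` to those with slot `j` -/
def op (M u i j N : ℕ) : ℕ :=
  Nat.add N (Nat.shiftLeft (Nat.land (Nat.shiftRight N (Nat.mul u i)) M) (Nat.mul u j))

theorem op_eq (M S i j N : ℕ) :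
    op M (48 * S) i j N = N + (((N >>> (48 * (S * i))) &&& M) <<< (48 * (S * j))) := by
  unfold op
  show N + (((N >>> (48 * S * i)) &&& M) <<< (48 * S * j)) = _
  rw [Nat.mul_assoc, Nat.mul_assoc]

theorem land_full (x : ℕ) (h : x < 2 ^ 48) : x &&& (2 ^ 48 - 1) = x := by
  rw [Nat.and_two_pow_sub_one_eq_mod, Nat.mod_eq_of_lt h]

theorem dg_part {M S : ℕ} (hM : MaskOK M S) (i j N k : ℕ) :
    dg (((N >>> (48 * (S * i))) &&& M) <<< (48 * (S * j))) k =
      if S * j ≤ k ∧ k - S * j < 250 ∧ (k - S * j) / S % 5 = 0 then dg N (k - S * j + S * i)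
      else 0 := by
  rw [dg_shl]
  by_cases h : k < S * j
  · rw [if_pos h, if_neg (by omega)]
  · rw [if_neg h, dg_land, dg_shr, hM]
    by_cases h1 : k - S * j < 250 ∧ (k - S * j) / S % 5 = 0
    · rw [if_pos h1, if_pos ⟨by omega, h1⟩, land_full _ (dg_lt _ _)]
    · rw [if_neg h1, if_neg (by tauto), Nat.and_zero]

/-- the bound on the digits -/
def Bd (g N : ℕ) : Prop := ∀ k, dg N k * 2 ^ g < 2 ^ 47

theorem Bd.lt {g N : ℕ} (h : Bd g N) (k : ℕ) : dg N k < 2 ^ 47 :=
  lt_of_le_of_lt (Nat.le_mul_of_pos_right _ (by positivity)) (h k)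

theorem dg_op {M S g : ℕ} (hM : MaskOK M S) (i j N : ℕ) (hN : Bd g N) (k : ℕ) :
    dg (op M (48 * S) i j N) k = dg N k +
      if S * j ≤ k ∧ k - S * j < 250 ∧ (k - S * j) / S % 5 = 0 then dg N (k - S * j + S * i)
      else 0 := by
  rw [op_eq, dg_add, dg_part hM]
  intro k
  rw [dg_part hM]
  have h1 := hN.lt k
  split_ifs
  · have h2 := hN.lt (k - S * j + S * i)
    omega
  · omega

theorem Bd_op {M S g : ℕ} (hM : MaskOK M S) (i j N : ℕ) (hN : Bd (g + 1) N) :
    Bd g (op M (48 * S) i j N) := by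
  intro k
  rw [dg_op hM i j N hN]
  have h1 := hN k
  rw [pow_succ] at h1
  split_ifs
  · have h2 := hN (k - S * j + S * i)
    rw [pow_succ] at h2
    nlinarith [h1, h2]
  · nlinarith [h1, Nat.zero_le (dg N k * 2 ^ g)]

/-- the coefficient of a packed form -/
def tt (N a b c : ℕ) : ℤ := (dg N (25 * a + 5 * b + c) : ℤ) - dg N (125 + (25 * a + 5 * b + c))

theorem tt_A {g : ℕ} (i j N : ℕ) (_ : i < 5) (hj : j < 5) (hN : Bd g N) (a b c : ℕ) (ha : a < 5)
    (hb : b < 5) (hc : c < 5) :
    tt (op mA (48 * 25) i j N) a b c = tt N a b c + if a = j then tt N i b c else 0 := by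
  unfold tt
  rw [dg_op mA_ok i j N hN, dg_op mA_ok i j N hN]
  by_cases h : a = j
  · subst h
    rw [if_pos ⟨by omega, by omega, by omega⟩, if_pos ⟨by omega, by omega, by omega⟩, if_pos rfl]
    rw [show 25 * a + 5 * b + c - 25 * a + 25 * i = 25 * i + 5 * b + c by omega,
      show 125 + (25 * a + 5 * b + c) - 25 * a + 25 * i = 125 + (25 * i + 5 * b + c) by omega]
    push_cast; ring
  · rw [if_neg (by omega), if_neg (by omega), if_neg h]
    simp

theorem tt_B {g : ℕ} (i j N : ℕ) (_ : i < 5) (hj : j < 5) (hN : Bd g N) (a b c : ℕ) (ha : a < 5)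
    (hb : b < 5) (hc : c < 5) :
    tt (op mB (48 * 5) i j N) a b c = tt N a b c + if b = j then tt N a i c else 0 := by
  unfold tt
  rw [dg_op mB_ok i j N hN, dg_op mB_ok i j N hN]
  by_cases h : b = j
  · subst h
    rw [if_pos ⟨by omega, by omega, by omega⟩, if_pos ⟨by omega, by omega, by omega⟩, if_pos rfl]
    rw [show 25 * a + 5 * b + c - 5 * b + 5 * i = 25 * a + 5 * i + c by omega,
      show 125 + (25 * a + 5 * b + c) - 5 * b + 5 * i = 125 + (25 * a + 5 * i + c) by omega]
    push_cast; ring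
  · rw [if_neg (by omega), if_neg (by omega), if_neg h]
    simp

theorem tt_C {g : ℕ} (i j N : ℕ) (_ : i < 5) (hj : j < 5) (hN : Bd g N) (a b c : ℕ) (ha : a < 5)
    (hb : b < 5) (hc : c < 5) :
    tt (op mC (48 * 1) i j N) a b c = tt N a b c + if c = j then tt N a b i else 0 := by
  unfold tt
  rw [dg_op mC_ok i j N hN, dg_op mC_ok i j N hN]
  by_cases h : c = j
  · subst h
    rw [if_pos ⟨by omega, by omega, by omega⟩, if_pos ⟨by omega, by omega, by omega⟩, if_pos rfl]
    rw [show 25 * a + 5 * b + c - 1 * c + 1 * i = 25 * a + 5 * b + i by omega,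
      show 125 + (25 * a + 5 * b + c) - 1 * c + 1 * i = 125 + (25 * a + 5 * b + i) by omega]
    push_cast; ring
  · rw [if_neg (by omega), if_neg (by omega), if_neg h]
    simp

open Finset in
/-- the form -/
def FF (N : ℕ) (x y z : ℕ → ℤ) : ℤ :=
  ∑ a ∈ range 5, ∑ b ∈ range 5, ∑ c ∈ range 5, tt N a b c * x a * y b * z c

/-- add the variable `j` to the variable `i` -/
def up (i j : ℕ) (x : ℕ → ℤ) : ℕ → ℤ := fun a => x a + if a = i then x j else 0

open Finset in
theorem FF_A {g : ℕ} (i j N : ℕ) (hi : i < 5) (hj : j < 5) (hN : Bd g N) (x y z : ℕ → ℤ) :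
    FF (op mA (48 * 25) i j N) x y z = FF N (up i j x) y z := by
  unfold FF up
  have e1 : ∀ a ∈ range 5, ∀ b ∈ range 5, ∀ c ∈ range 5,
      tt (op mA (48 * 25) i j N) a b c * x a * y b * z c =
        tt N a b c * x a * y b * z c + (if a = j then tt N i b c * x j * y b * z c else 0) := by
    intro a ha b hb c hc
    rw [tt_A i j N hi hj hN a b c (mem_range.1 ha) (mem_range.1 hb) (mem_range.1 hc)]
    split_ifs with h
    · subst h; ring
    · ring
  have e2 : ∀ a ∈ range 5, ∀ b ∈ range 5, ∀ c ∈ range 5,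
      tt N a b c * (x a + if a = i then x j else 0) * y b * z c =
        tt N a b c * x a * y b * z c + (if a = i then tt N i b c * x j * y b * z c else 0) := by
    intro a _ b _ c _
    split_ifs with h
    · subst h; ring
    · ring
  rw [sum_congr rfl fun a ha => sum_congr rfl fun b hb => sum_congr rfl fun c hc => e1 a ha b hb c hc,
    sum_congr rfl fun a ha => sum_congr rfl fun b hb => sum_congr rfl fun c hc => e2 a ha b hb c hc]
  simp only [sum_add_distrib]
  congr 1
  have e3 : ∀ u < 5, (∑ a ∈ range 5, ∑ b ∈ range 5, ∑ c ∈ range 5,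
      (if a = u then tt N i b c * x j * y b * z c else 0)) =
      ∑ b ∈ range 5, ∑ c ∈ range 5, tt N i b c * x j * y b * z c := by
    intro u hu
    rw [sum_eq_single u]
    · simp
    · intro a _ ha
      simp [ha]
    · intro h; exact absurd (mem_range.2 hu) h
  rw [e3 j hj, e3 i hi]

open Finset in
theorem FF_B {g : ℕ} (i j N : ℕ) (hi : i < 5) (hj : j < 5) (hN : Bd g N) (x y z : ℕ → ℤ) :
    FF (op mB (48 * 5) i j N) x y z = FF N x (up i j y) z := by
  unfold FF up
  refine sum_congr rfl fun a ha => ?_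
  have e1 : ∀ b ∈ range 5, ∀ c ∈ range 5,
      tt (op mB (48 * 5) i j N) a b c * x a * y b * z c =
        tt N a b c * x a * y b * z c + (if b = j then tt N a i c * x a * y j * z c else 0) := by
    intro b hb c hc
    rw [tt_B i j N hi hj hN a b c (mem_range.1 ha) (mem_range.1 hb) (mem_range.1 hc)]
    split_ifs with h
    · subst h; ring
    · ring
  have e2 : ∀ b ∈ range 5, ∀ c ∈ range 5,
      tt N a b c * x a * (y b + if b = i then y j else 0) * z c =
        tt N a b c * x a * y b * z c + (if b = i then tt N a i c * x a * y j * z c else 0) := by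
    intro b _ c _
    split_ifs with h
    · subst h; ring
    · ring
  rw [sum_congr rfl fun b hb => sum_congr rfl fun c hc => e1 b hb c hc,
    sum_congr rfl fun b hb => sum_congr rfl fun c hc => e2 b hb c hc]
  simp only [sum_add_distrib]
  congr 1
  have e3 : ∀ u < 5, (∑ b ∈ range 5, ∑ c ∈ range 5,
      (if b = u then tt N a i c * x a * y j * z c else 0)) =
      ∑ c ∈ range 5, tt N a i c * x a * y j * z c := by
    intro u hu
    rw [sum_eq_single u]
    · simp
    · intro a _ ha
      simp [ha]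
    · intro h; exact absurd (mem_range.2 hu) h
  rw [e3 j hj, e3 i hi]

open Finset in
theorem FF_C {g : ℕ} (i j N : ℕ) (hi : i < 5) (hj : j < 5) (hN : Bd g N) (x y z : ℕ → ℤ) :
    FF (op mC (48 * 1) i j N) x y z = FF N x y (up i j z) := by
  unfold FF up
  refine sum_congr rfl fun a ha => sum_congr rfl fun b hb => ?_
  have e1 : ∀ c ∈ range 5,
      tt (op mC (48 * 1) i j N) a b c * x a * y b * z c =
        tt N a b c * x a * y b * z c + (if c = j then tt N a b i * x a * y b * z j else 0) := by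
    intro c hc
    rw [tt_C i j N hi hj hN a b c (mem_range.1 ha) (mem_range.1 hb) (mem_range.1 hc)]
    split_ifs with h
    · subst h; ring
    · ring
  have e2 : ∀ c ∈ range 5,
      tt N a b c * x a * y b * (z c + if c = i then z j else 0) =
        tt N a b c * x a * y b * z c + (if c = i then tt N a b i * x a * y b * z j else 0) := by
    intro c _
    split_ifs with h
    · subst h; ring
    · ring
  rw [sum_congr rfl fun c hc => e1 c hc, sum_congr rfl fun c hc => e2 c hc]
  simp only [sum_add_distrib]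
  congr 1
  have e3 : ∀ u < 5, (∑ c ∈ range 5,
      (if c = u then tt N a b i * x a * y b * z j else 0)) = tt N a b i * x a * y b * z j := by
    intro u hu
    rw [sum_eq_single u]
    · simp
    · intro a _ ha
      simp [ha]
    · intro h; exact absurd (mem_range.2 hu) h
  rw [e3 j hj, e3 i hi]

/-- evaluate a number before it is used -/
noncomputable def fz {α : Type} (n : ℕ) (k : ℕ → α) : α :=
  Nat.rec (k 0) (fun m _ => k (Nat.succ m)) n

theorem fz_eq {α : Type} (n : ℕ) (k : ℕ → α) : fz n k = k n := by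
  cases n <;> rfl

/-- evaluate a number before it is used; the lowest 64 digits of the number which is stored are a
residue of the number, so that different numbers differ there -/
noncomputable def fh {α : Type} (n : ℕ) (k : ℕ → α) : α :=
  fz (Nat.add (Nat.shiftLeft n 64) (Nat.mod n 18446744073709551557)) fun m =>
    k (Nat.shiftRight m 64)

theorem fh_eq {α : Type} (n : ℕ) (k : ℕ → α) : fh n k = k n := by
  unfold fh
  rw [fz_eq]
  have e : Nat.shiftRight (Nat.add (Nat.shiftLeft n 64) (Nat.mod n 18446744073709551557)) 64 = n := by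
    show ((n <<< 64) + n % 18446744073709551557) >>> 64 = n
    rw [Nat.shiftLeft_eq, Nat.shiftRight_eq_div_pow]
    have h : n % 18446744073709551557 < 2 ^ 64 :=
      lt_of_lt_of_le (Nat.mod_lt _ (by norm_num)) (by norm_num)
    rw [Nat.mul_comm, Nat.mul_add_div (by positivity), Nat.div_eq_of_lt h, add_zero]
  rw [e]

/-- all three slots -/
noncomputable def op3 (i j N : ℕ) (k : ℕ → Option ℕ) : Option ℕ :=
  fh (op mA 1200 i j N) fun N1 => fh (op mB 240 i j N1) fun N2 => fh (op mC 48 i j N2) k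

/-- the top bits -/
def mH : ℕ := 2 ^ 47 * ((2 ^ (48 * 125) - 1) / (2 ^ 48 - 1))

/-- the check at a leaf: all coefficients nonnegative -/
noncomputable def leaf (N : ℕ) : Bool :=
  fh (Nat.mod N (2 ^ 6000)) fun p => fh (Nat.shiftRight N 6000) fun q =>
    (Nat.ble q p) && (Nat.beq (Nat.land (Nat.sub p q) mH) 0)

/-- the checker: `n` is the code of a tree in the order root, left, right (base 32), `0` a leaf,
`1 + 5 i + j` the comparison of the variables `i` and `j`; the value is the rest of the code -/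
noncomputable def chk (f : ℕ) : ℕ → ℕ → Option ℕ :=
  Nat.rec (fun _ _ => none) (fun _ ih N n =>
    Nat.rec (cond (leaf N) (some (Nat.div n 32)) none) (fun m _ =>
      fz (Nat.div m 5) fun i => fz (Nat.mod m 5) fun j =>
        cond (Nat.ble i 4 && !(Nat.beq i j))
          (op3 i j N fun N1 => fz (Nat.div n 32) fun n1 =>
            Option.rec none (fun r => fz r fun n2 => op3 j i N fun N2 => ih N2 n2) (ih N1 n1))
          none)
      (Nat.mod n 32)) f

theorem chk_zero (N n : ℕ) : chk 0 N n = none := rfl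

/-- all three slots -/
def o3 (i j N : ℕ) : ℕ := op mC 48 i j (op mB 240 i j (op mA 1200 i j N))

theorem op3_eq (i j N : ℕ) (k : ℕ → Option ℕ) : op3 i j N k = k (o3 i j N) := by
  unfold op3 o3
  rw [fh_eq, fh_eq, fh_eq]

theorem leaf_eq (N : ℕ) : leaf N =
    (Nat.ble (N >>> 6000) (N % 2 ^ 6000) &&
      Nat.beq ((N % 2 ^ 6000 - N >>> 6000) &&& mH) 0) := by
  unfold leaf
  rw [fh_eq, fh_eq]
  rfl

theorem chk_succ (f N n : ℕ) : chk (f + 1) N n =
    match n % 32 with
    | 0 => cond (leaf N) (some (n / 32)) none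
    | m + 1 => cond (Nat.ble (m / 5) 4 && !(Nat.beq (m / 5) (m % 5)))
          (match chk f (o3 (m / 5) (m % 5) N) (n / 32) with
            | none => none
            | some r => chk f (o3 (m % 5) (m / 5) N) r) none := by
  have e : chk (f + 1) N n = Nat.rec (cond (leaf N) (some (Nat.div n 32)) none) (fun m _ =>
      fz (Nat.div m 5) fun i => fz (Nat.mod m 5) fun j =>
        cond (Nat.ble i 4 && !(Nat.beq i j))
          (op3 i j N fun N1 => fz (Nat.div n 32) fun n1 =>
            Option.rec none (fun r => fz r fun n2 => op3 j i N fun N2 => chk f N2 n2)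
              (chk f N1 n1))
          none)
      (Nat.mod n 32) := rfl
  rw [e]
  have e2 : Nat.mod n 32 = n % 32 := rfl
  rw [e2]
  cases n % 32 with
  | zero => rfl
  | succ m =>
    simp only [fz_eq, op3_eq]
    have e3 : Nat.div m 5 = m / 5 := rfl
    have e4 : Nat.mod m 5 = m % 5 := rfl
    have e5 : Nat.div n 32 = n / 32 := rfl
    rw [e3, e4, e5]
    cases chk f (o3 (m / 5) (m % 5) N) (n / 32) <;> rfl

theorem mH_dg {k : ℕ} (hk : k < 125) : dg mH k = 2 ^ 47 := by
  have h : ∀ k ∈ List.range 125, dg mH k = 2 ^ 47 := by decide +kernel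
  exact h k (List.mem_range.2 hk)

theorem land_top (x : ℕ) (h : x &&& 2 ^ 47 = 0) (hx : x < 2 ^ 48) : x < 2 ^ 47 := by
  by_contra hc
  have h2 : x / 2 ^ 47 = 1 := by
    rw [Nat.div_eq_iff (by positivity)]
    omega
  have h3 : x.testBit 47 = true := by
    rw [Nat.testBit_eq_decide_div_mod_eq, h2]
    rfl
  have h4 : (x &&& 2 ^ 47).testBit 47 = true := by
    rw [Nat.testBit_and, h3, Nat.testBit_two_pow_self]
    rfl
  rw [h] at h4
  simp at h4

theorem dg_mod (N k : ℕ) : dg (N % 2 ^ 6000) k = if k < 125 then dg N k else 0 := by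
  apply Nat.eq_of_testBit_eq
  intro i
  by_cases hk : k < 125
  · rw [if_pos hk]
    simp only [dg, Nat.testBit_mod_two_pow, Nat.testBit_div_two_pow]
    by_cases hi : i < 48
    · simp only [hi, decide_true, Bool.true_and]
      rw [show (decide (i + 48 * k < 6000)) = true from by simp; omega]
      simp
    · simp [hi]
  · rw [if_neg hk]
    simp only [dg, Nat.testBit_mod_two_pow, Nat.testBit_div_two_pow, Nat.zero_testBit]
    rw [show (decide (i + 48 * k < 6000)) = false from by simp; omega]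
    simp

theorem leaf_tt {N : ℕ} {g : ℕ} (h : leaf N = true) (hN : Bd g N) (a b c : ℕ) (ha : a < 5)
    (hb : b < 5) (hc : c < 5) : 0 ≤ tt N a b c := by
  rw [leaf_eq, Bool.and_eq_true] at h
  have h1 : N >>> 6000 ≤ N % 2 ^ 6000 := Nat.le_of_ble_eq_true h.1
  have h2 : (N % 2 ^ 6000 - N >>> 6000) &&& mH = 0 := Nat.eq_of_beq_eq_true h.2
  set D := N % 2 ^ 6000 - N >>> 6000 with hD
  have hq : ∀ k, dg (N >>> 6000) k = dg N (k + 125) := fun k => dg_shr N 125 k
  have hDk : ∀ k, dg D k < 2 ^ 47 := by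
    intro k
    by_cases hk : k < 125
    · apply land_top _ _ (dg_lt _ _)
      rw [← mH_dg hk, ← dg_land, h2, dg_zero]
    · have h3 : D < 2 ^ 6000 := lt_of_le_of_lt (Nat.sub_le _ _) (Nat.mod_lt _ (by positivity))
      have h4 : D % 2 ^ 6000 = D := Nat.mod_eq_of_lt h3
      rw [← h4, dg_mod, if_neg hk]
      positivity
  have hs : ∀ k, dg (D + N >>> 6000) k = dg D k + dg (N >>> 6000) k := by
    apply dg_add
    intro k
    have h3 := hDk k
    have h4 := hN.lt (k + 125)
    rw [hq]
    omega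
  have e : D + N >>> 6000 = N % 2 ^ 6000 := by omega
  have h5 := hs (25 * a + 5 * b + c)
  rw [e, dg_mod, if_pos (by omega), hq] at h5
  unfold tt
  rw [show 125 + (25 * a + 5 * b + c) = 25 * a + 5 * b + c + 125 by ring]
  omega

open Finset in
theorem leaf_FF {N g : ℕ} (h : leaf N = true) (hN : Bd g N) (x : ℕ → ℤ) (hx : ∀ a, 0 ≤ x a) :
    0 ≤ FF N x x x := by
  unfold FF
  refine sum_nonneg fun a ha => sum_nonneg fun b hb => sum_nonneg fun c hc => ?_
  have h1 := leaf_tt h hN a b c (mem_range.1 ha) (mem_range.1 hb) (mem_range.1 hc)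
  have h2 := hx a
  have h3 := hx b
  have h4 := hx c
  positivity

theorem Bd_o3 {g i j N : ℕ} (hN : Bd (g + 3) N) : Bd g (o3 i j N) :=
  Bd_op mC_ok i j _ (Bd_op mB_ok i j _ (Bd_op mA_ok i j _ hN))

theorem FF_o3 {g i j N : ℕ} (hi : i < 5) (hj : j < 5) (hN : Bd (g + 3) N) (x : ℕ → ℤ) :
    FF (o3 i j N) x x x = FF N (up i j x) (up i j x) (up i j x) := by
  have h1 : Bd (g + 2) (op mA (48 * 25) i j N) := Bd_op mA_ok i j _ hN
  have h2 : Bd (g + 1) (op mB (48 * 5) i j (op mA (48 * 25) i j N)) := Bd_op mB_ok i j _ h1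
  have e3 := FF_C i j _ hi hj h2 x x x
  have e2 := FF_B i j _ hi hj h1 x x (up i j x)
  have e1 := FF_A i j _ hi hj hN x (up i j x) (up i j x)
  exact e3.trans (e2.trans e1)

theorem up_sub {i j : ℕ} (hij : i ≠ j) (x : ℕ → ℤ) :
    up i j (fun a => x a - if a = i then x j else 0) = x := by
  funext a
  unfold up
  simp only [Ne.symm hij, if_false, sub_zero]
  by_cases h : a = i <;> simp [h]

theorem step {N i j g : ℕ} (hi : i < 5) (hj : j < 5) (hij : i ≠ j) (hN : Bd (g + 3) N)
    (h1 : ∀ x : ℕ → ℤ, (∀ a, 0 ≤ x a) → 0 ≤ FF (o3 i j N) x x x)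
    (h2 : ∀ x : ℕ → ℤ, (∀ a, 0 ≤ x a) → 0 ≤ FF (o3 j i N) x x x)
    (x : ℕ → ℤ) (hx : ∀ a, 0 ≤ x a) : 0 ≤ FF N x x x := by
  rcases le_total (x j) (x i) with h | h
  · have e := up_sub hij x
    have e2 := FF_o3 hi hj hN (fun a => x a - if a = i then x j else 0)
    rw [e] at e2
    rw [← e2]
    apply h1
    intro a
    by_cases ha : a = i
    · subst ha; simp; omega
    · simp [ha]; exact hx a
  · have e := up_sub (Ne.symm hij) x
    have e2 := FF_o3 hj hi hN (fun a => x a - if a = j then x i else 0)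
    rw [e] at e2
    rw [← e2]
    apply h2
    intro a
    by_cases ha : a = j
    · subst ha; simp; omega
    · simp [ha]; exact hx a

theorem chk_sound : ∀ (f N n m : ℕ), chk f N n = some m → Bd (3 * f) N →
    ∀ x : ℕ → ℤ, (∀ a, 0 ≤ x a) → 0 ≤ FF N x x x := by
  intro f
  induction f with
  | zero => intro N n m h; rw [chk_zero] at h; exact absurd h (by simp)
  | succ f ih =>
    intro N n m h hN x hx
    rw [chk_succ] at h
    split at h
    · cases hl : leaf N with
      | true => exact leaf_FF hl hN x hx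
      | false => rw [hl] at h; exact absurd h (by simp)
    · rename_i k hk
      cases hc : (Nat.ble (k / 5) 4 && !(Nat.beq (k / 5) (k % 5))) with
      | false => rw [hc] at h; exact absurd h (by simp)
      | true =>
        rw [hc, cond_true] at h
        rw [Bool.and_eq_true] at hc
        have h1 : k / 5 ≤ 4 := Nat.le_of_ble_eq_true hc.1
        have h2 : k / 5 ≠ k % 5 := by
          intro h3
          have h4 := hc.2
          rw [h3] at h4
          simp at h4
        split at h
        · exact absurd h (by simp)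
        · rename_i r hr
          have hB : Bd (3 * f + 3) N := hN
          exact step (by omega) (Nat.mod_lt _ (by norm_num)) h2 hB
            (ih _ _ _ hr (Bd_o3 hB)) (ih _ _ _ h (Bd_o3 hB)) x hx

end Pool.Agent.V641.TS
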